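import Pool.Agent.helper4.AN.Rate

/-!
# Polynomial approximations of the ideal amplitudes
-/

namespace ANB

open Set Topology Filter

/-! ### positions -/

theorem wt_pos (i : ℕ) : 0 < wt i := by unfold wt; positivity

theorem wt_nonneg (i : ℕ) : 0 ≤ wt i := (wt_pos i).le

theorem summable_wt : Summable wt := by
  unfold wt
  simp_rw [pow_add]
  exact (summable_geometric_of_lt_one (by norm_num) (by norm_num)).mul_right _

theorem tsum_wt : ∑' i, wt i = 1 / 2 := by
  unfold wt
  simp_rw [pow_add]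
  rw [tsum_mul_right, tsum_geometric_two]
  norm_num

theorem summable_ite_wt (p : ℕ → Prop) [DecidablePred p] :
    Summable fun j => if p j then wt j else 0 := by
  refine Summable.of_nonneg_of_le (fun j => ?_) (fun j => ?_) summable_wt
  · split_ifs
    · exact wt_nonneg j
    · exact le_rfl
  · split_ifs
    · exact le_rfl
    · exact wt_nonneg j

theorem tsum_wt_tail (N : ℕ) : ∑' j, (if j < N then 0 else wt j) = (1 / 2 : ℝ) ^ (N + 1) := by
  have h1 : Summable fun j => if j < N then 0 else wt j := by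
    have := summable_ite_wt (fun j => ¬ j < N)
    simpa only [ite_not] using this
  rw [← h1.sum_add_tsum_nat_add N]
  have h2 : ∑ i ∈ Finset.range N, (if i < N then 0 else wt i) = 0 :=
    Finset.sum_eq_zero fun i hi => by rw [if_pos (Finset.mem_range.1 hi)]
  rw [h2, zero_add]
  have h3 : (fun i : ℕ => if i + N < N then (0 : ℝ) else wt (i + N)) =
      fun i => (1 / 2 : ℝ) ^ i * (1 / 2) ^ (N + 2) := by
    funext i
    rw [if_neg (by omega), wt, ← pow_add]
    congr 1
  rw [h3, tsum_mul_right, tsum_geometric_two, pow_succ (1 / 2 : ℝ) (N + 1)]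
  ring

/-- the positions depend continuously on the code -/
theorem abs_lft_sub_le {r r' : ℕ → ℕ → Bool} {i N : ℕ} (h : ∀ j < N, r j i = r' j i) :
    |lft r i - lft r' i| ≤ (1 / 2 : ℝ) ^ (N + 1) := by
  have s1 := summable_ite_wt (fun j => r j i = true)
  have s2 := summable_ite_wt (fun j => r' j i = true)
  have s3 : Summable fun j => if j < N then 0 else wt j := by
    have := summable_ite_wt (fun j => ¬ j < N)
    simpa only [ite_not] using this
  have hb : ∀ j, |(if r j i = true then wt j else 0) - (if r' j i = true then wt j else 0)| ≤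
      if j < N then 0 else wt j := by
    intro j
    split_ifs with h1 h2 h3 h3 h2 h3 h3
    all_goals try simp only [sub_self, abs_zero, sub_zero, zero_sub, abs_neg]
    all_goals try exact wt_nonneg j
    all_goals try exact le_rfl
    all_goals try exact le_of_eq (abs_of_nonneg (wt_nonneg j))
    · exact absurd ((h j h3).symm.trans h1) h2
    · exact absurd ((h j h3).trans h2) h1
  rw [lft, lft, ← s1.tsum_sub s2, ← tsum_wt_tail N]
  have s4 : Summable fun j =>
      |(if r j i = true then wt j else 0) - (if r' j i = true then wt j else 0)| :=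
    Summable.of_nonneg_of_le (fun j => abs_nonneg _) hb s3
  calc |∑' j, ((if r j i = true then wt j else 0) - (if r' j i = true then wt j else 0))|
      ≤ ∑' j, |(if r j i = true then wt j else 0) - (if r' j i = true then wt j else 0)| := by
        have := norm_tsum_le_tsum_norm
          (f := fun j => (if r j i = true then wt j else 0) - (if r' j i = true then wt j else 0))
          (by simpa using s4)
        simpa using this
    _ ≤ _ := s4.tsum_le_tsum hb s3

theorem abs_max_sub_max_le' (a b c : ℝ) : |max c a - max c b| ≤ |a - b| := by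
  have := abs_max_sub_max_le_abs a b c
  rwa [max_comm a c, max_comm b c] at this

theorem abs_bump_sub_le (r r' : ℕ → ℕ → Bool) (n i : ℕ) (x : ℝ × ℝ) :
    |bump r n i x - bump r' n i x| ≤ 2 * (n + 1) * |lft r i - lft r' i| / wt i := by
  have hw := wt_pos i
  rw [bump, bump, ← mul_sub, abs_mul, abs_of_pos (by norm_num : (0 : ℝ) < 1 / 8)]
  have h1 := abs_max_sub_max_le' (1 - 16 * (n + 1) * max |x.1 - ctr r i| |x.2 - wt i / 4| / wt i)
    (1 - 16 * (n + 1) * max |x.1 - ctr r' i| |x.2 - wt i / 4| / wt i) 0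
  have h2 : |(1 - 16 * (n + 1) * max |x.1 - ctr r i| |x.2 - wt i / 4| / wt i) -
      (1 - 16 * (n + 1) * max |x.1 - ctr r' i| |x.2 - wt i / 4| / wt i)| =
      16 * (n + 1) / wt i * abs (max |x.1 - ctr r i| |x.2 - wt i / 4| -
        max |x.1 - ctr r' i| |x.2 - wt i / 4|) := by
    rw [show (1 - 16 * (n + 1) * max |x.1 - ctr r i| |x.2 - wt i / 4| / wt i) -
      (1 - 16 * (n + 1) * max |x.1 - ctr r' i| |x.2 - wt i / 4| / wt i) =
      -(16 * (n + 1) / wt i * (max |x.1 - ctr r i| |x.2 - wt i / 4| -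
        max |x.1 - ctr r' i| |x.2 - wt i / 4|)) by ring, abs_neg, abs_mul,
        abs_of_nonneg (by positivity)]
  have h3 : abs (max |x.1 - ctr r i| |x.2 - wt i / 4| - max |x.1 - ctr r' i| |x.2 - wt i / 4|) ≤
      |lft r i - lft r' i| := by
    refine (abs_max_sub_max_le_abs _ _ _).trans ?_
    refine (abs_abs_sub_abs_le_abs_sub _ _).trans (le_of_eq ?_)
    rw [ctr, ctr, ← abs_neg]
    congr 1
    ring
  rw [h2] at h1
  calc 1 / 8 * |max 0 (1 - 16 * (n + 1) * max |x.1 - ctr r i| |x.2 - wt i / 4| / wt i) -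
      max 0 (1 - 16 * (n + 1) * max |x.1 - ctr r' i| |x.2 - wt i / 4| / wt i)|
      ≤ 1 / 8 * (16 * (n + 1) / wt i * |lft r i - lft r' i|) := by
        gcongr
        exact h1.trans (by gcongr)
    _ = 2 * (n + 1) * |lft r i - lft r' i| / wt i := by ring

/-- number of bits used at stage `n` -/
def nb (n : ℕ) : ℕ := 4 * n + 8

/-- the finite state of the code `κ` at stage `n` -/
def st (κ : (ℕ → ℕ → Bool) × (ℕ → ℕ)) (n : ℕ) : ℕ :=
  Encodable.encode
    (((Finset.range (nb n) ×ˢ Finset.range (n + 1)).filter (fun p => κ.1 p.1 p.2 = true),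
      (Finset.range (n + 1)).filter (fun i => κ.2 i = lam n)) : Finset (ℕ × ℕ) × Finset ℕ)

theorem st_eq_iff {κ κ' : (ℕ → ℕ → Bool) × (ℕ → ℕ)} {n : ℕ} :
    st κ n = st κ' n ↔ (∀ j < nb n, ∀ i ≤ n, κ.1 j i = κ'.1 j i) ∧
      ∀ i ≤ n, (κ.2 i = lam n ↔ κ'.2 i = lam n) := by
  rw [st, st, Encodable.encode_inj, Prod.mk.injEq]
  refine and_congr ?_ ?_
  · rw [Finset.filter_inj']
    constructor
    · intro h j hj i hi
      have := @h (j, i) (by simp; omega)
      simp only at this
      cases h1 : κ.1 j i <;> cases h2 : κ'.1 j i <;> simp_all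
    · rintro h ⟨j, i⟩ hji
      simp only [Finset.mem_product, Finset.mem_range] at hji
      simp only
      rw [h j hji.1 i (by omega)]
  · rw [Finset.filter_inj']
    constructor
    · intro h i hi
      exact @h i (by simp; omega)
    · intro h i hi
      exact h i (by simp at hi; omega)

theorem pow_bound (n : ℕ) : ((n : ℝ) + 1) * (2 * (n + 1) * (1 / 2 : ℝ) ^ (nb n + 1) / (1 / 2) ^ (n + 2)) ≤
    (1 / 2 : ℝ) ^ (n + 1) := by
  have h1 : ((n : ℝ) + 1) ≤ 2 ^ n := by
    have : n + 1 ≤ 2 ^ n := Nat.lt_two_pow_self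
    exact_mod_cast this
  have h0 : (0 : ℝ) ≤ (n : ℝ) + 1 := by positivity
  have e1 : nb n + 1 = (n + 2) + (3 * n + 7) := by unfold nb; ring
  have e2 : (1 / 2 : ℝ) ^ (nb n + 1) / (1 / 2) ^ (n + 2) = (1 / 2) ^ (3 * n + 7) := by
    rw [e1, pow_add]
    field_simp
  calc ((n : ℝ) + 1) * (2 * (n + 1) * (1 / 2 : ℝ) ^ (nb n + 1) / (1 / 2) ^ (n + 2))
      = ((n : ℝ) + 1) * (2 * (n + 1) * ((1 / 2 : ℝ) ^ (nb n + 1) / (1 / 2) ^ (n + 2))) := by ring
    _ = ((n : ℝ) + 1) * (2 * (n + 1) * (1 / 2) ^ (3 * n + 7)) := by rw [e2]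
    _ ≤ 2 ^ n * (2 * 2 ^ n * (1 / 2) ^ (3 * n + 7)) := by gcongr
    _ = (1 / 2 : ℝ) ^ (n + 6) * ((2 ^ n * (1 / 2) ^ n) * (2 ^ n * (1 / 2) ^ n)) := by
        rw [show 3 * n + 7 = (n + 6) + n + n + 1 by ring, pow_add, pow_add, pow_add]
        ring
    _ = (1 / 2 : ℝ) ^ (n + 6) := by
        rw [← mul_pow]
        norm_num
    _ ≤ (1 / 2 : ℝ) ^ (n + 1) := pow_le_pow_of_le_one (by norm_num) (by norm_num) (by omega)

/-- the ideal amplitude is almost determined by the state -/
theorem abs_astar_sub_le {κ κ' : (ℕ → ℕ → Bool) × (ℕ → ℕ)} {n : ℕ} (h : st κ n = st κ' n)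
    (x : ℝ × ℝ) : |astar κ n x - astar κ' n x| ≤ (1 / 2 : ℝ) ^ (n + 1) := by
  obtain ⟨h1, h2⟩ := st_eq_iff.1 h
  rw [astar, astar, ← Finset.sum_sub_distrib]
  refine (Finset.abs_sum_le_sum_abs _ _).trans ?_
  refine le_trans ?_ (pow_bound n)
  have hterm : ∀ i ∈ Finset.range (n + 1),
      |(if κ.2 i = lam n then bump κ.1 n i x else 0) -
        (if κ'.2 i = lam n then bump κ'.1 n i x else 0)| ≤
      2 * (n + 1) * (1 / 2 : ℝ) ^ (nb n + 1) / (1 / 2) ^ (n + 2) := by
    intro i hi
    have hi' : i ≤ n := by simpa [Nat.lt_succ_iff] using hi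
    by_cases hl : κ.2 i = lam n
    · rw [if_pos hl, if_pos ((h2 i hi').1 hl)]
      refine (abs_bump_sub_le _ _ n i x).trans ?_
      have h3 : |lft κ.1 i - lft κ'.1 i| ≤ (1 / 2 : ℝ) ^ (nb n + 1) :=
        abs_lft_sub_le (fun j hj => h1 j hj i hi')
      have h4 : (1 / 2 : ℝ) ^ (n + 2) ≤ wt i :=
        pow_le_pow_of_le_one (by norm_num) (by norm_num) (by omega)
      have h5 : (0 : ℝ) < (1 / 2) ^ (n + 2) := by positivity
      gcongr
    · rw [if_neg hl, if_neg (fun h => hl ((h2 i hi').2 h)), sub_self, abs_zero]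
      positivity
  refine (Finset.sum_le_sum hterm).trans (le_of_eq ?_)
  rw [Finset.sum_const, Finset.card_range, nsmul_eq_mul]
  push_cast
  ring

theorem continuous_bump (r : ℕ → ℕ → Bool) (n i : ℕ) : Continuous (bump r n i) := by
  unfold bump
  have := (wt_pos i).ne'
  fun_prop

theorem continuous_astar (κ : (ℕ → ℕ → Bool) × (ℕ → ℕ)) (n : ℕ) : Continuous (astar κ n) := by
  unfold astar
  refine continuous_finsetSum _ fun i _ => ?_
  split_ifs
  · exact continuous_bump _ _ _
  · exact continuous_const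

/-! ### Stone–Weierstrass on the rectangle -/

/-- value of a polynomial at a point of the plane -/
noncomputable def pev (p : MvPolynomial (Fin 2) ℝ) (x : ℝ × ℝ) : ℝ :=
  MvPolynomial.eval ![x.1, x.2] p

theorem continuous_pev (p : MvPolynomial (Fin 2) ℝ) : Continuous (pev p) := by
  unfold pev
  refine (MvPolynomial.continuous_eval p).comp ?_
  refine continuous_pi fun i => ?_
  fin_cases i
  · exact continuous_fst
  · exact continuous_snd

theorem isCompact_Rect : IsCompact Rect := isCompact_Icc.prod isCompact_Icc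

theorem exists_poly (f : ℝ × ℝ → ℝ) (hf : Continuous f) {ε : ℝ} (hε : 0 < ε) :
    ∃ p : MvPolynomial (Fin 2) ℝ, ∀ x ∈ Rect, |pev p x - f x| < ε := by
  let φ : MvPolynomial (Fin 2) ℝ →ₐ[ℝ] C(ℝ × ℝ, ℝ) :=
    MvPolynomial.aeval ![(⟨Prod.fst, continuous_fst⟩ : C(ℝ × ℝ, ℝ)), ⟨Prod.snd, continuous_snd⟩]
  have hφ : ∀ p x, φ p x = pev p x := by
    intro p x
    let ev : C(ℝ × ℝ, ℝ) →ₐ[ℝ] ℝ := ContinuousMap.evalAlgHom ℝ ℝ x
    have h1 : ev.comp φ = MvPolynomial.aeval ![x.1, x.2] := by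
      refine MvPolynomial.algHom_ext fun i => ?_
      fin_cases i <;> simp [φ, ev]
    have h2 := DFunLike.congr_fun h1 p
    simp only [AlgHom.comp_apply] at h2
    rw [pev, ← MvPolynomial.coe_aeval_eq_eval]
    exact h2
  have hsep : φ.range.SeparatesPoints := by
    intro x y hxy
    by_cases h : x.1 = y.1
    · have h' : x.2 ≠ y.2 := fun h2 => hxy (Prod.ext h h2)
      refine ⟨φ (MvPolynomial.X 1), ⟨_, ⟨_, rfl⟩, rfl⟩, ?_⟩
      rw [hφ, hφ]
      simpa [pev] using h'
    · refine ⟨φ (MvPolynomial.X 0), ⟨_, ⟨_, rfl⟩, rfl⟩, ?_⟩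
      rw [hφ, hφ]
      simpa [pev] using h
  obtain ⟨g, ⟨p, rfl⟩, hg⟩ :=
    ContinuousMap.exists_mem_subalgebra_near_continuous_of_isCompact_of_separatesPoints
      hsep ⟨f, hf⟩ isCompact_Rect hε
  refine ⟨p, fun x hx => ?_⟩
  have h := hg x hx
  change |φ p x - f x| < ε at h
  rwa [hφ] at h

open Classical in
/-- the polynomial of the state `s` at stage `n` -/
noncomputable def polyn (n s : ℕ) : MvPolynomial (Fin 2) ℝ :=
  if h : ∃ κ, st κ n = s then
    (exists_poly (astar h.choose n) (continuous_astar _ n)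
      (show (0 : ℝ) < (1 / 2) ^ (n + 1) by positivity)).choose
  else 0

/-- the polynomial amplitude -/
noncomputable def Pn (κ : (ℕ → ℕ → Bool) × (ℕ → ℕ)) (n : ℕ) (x : ℝ × ℝ) : ℝ :=
  pev (polyn n (st κ n)) x

theorem amp_Pn (κ : (ℕ → ℕ → Bool) × (ℕ → ℕ)) : Amp κ (Pn κ) := by
  refine ⟨fun n => continuous_pev _, fun n x hx => ?_⟩
  have hex : ∃ κ', st κ' n = st κ n := ⟨κ, rfl⟩
  have h1 : |Pn κ n x - astar hex.choose n x| < (1 / 2) ^ (n + 1) := by
    rw [Pn, polyn, dif_pos hex]
    exact (exists_poly (astar hex.choose n) (continuous_astar _ n)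
      (show (0 : ℝ) < (1 / 2) ^ (n + 1) by positivity)).choose_spec x hx
  have h2 := abs_astar_sub_le hex.choose_spec x
  have h3 := abs_sub_le (Pn κ n x) (astar hex.choose n x) (astar κ n x)
  have h4 : (1 / 2 : ℝ) ^ n = (1 / 2) ^ (n + 1) + (1 / 2) ^ (n + 1) := by
    rw [pow_succ]; ring
  rw [h4]
  linarith

end ANB
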