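import Mathlib

/-!
# Definitions for MP_aef7b4_an (interface)

Internal definitions of the construction.  `Fm` = infinitary formulas evaluated in a topological
space with a sequence of distinguished subsets; codes of labelled linear orders; planar markers;
the twist maps on the model space `MM = T² × S²`.
-/

namespace ANB

open Set Topology Filter

/-! ## Formulas -/

/-- infinitary topological formulas -/
inductive Fm : Type
  | atom : ℕ → Fm
  | diff : Fm → Fm → Fm
  | union : (ℕ → Fm) → Fm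
  | inter : (ℕ → Fm) → Fm
  | cl : Fm → Fm

/-- the set defined by a formula in a space `Z` with distinguished subsets `P l` -/
def Fm.sem {Z : Type*} [TopologicalSpace Z] (P : ℕ → Set Z) : Fm → Set Z
  | .atom l => P l
  | .diff a b => a.sem P \ b.sem P
  | .union f => ⋃ n, (f n).sem P
  | .inter f => ⋂ n, (f n).sem P
  | .cl a => closure (a.sem P)

/-! ## The point space of a linear order -/

/-- Points of the order `O`: elements `x` (coded by `([· < x], [· = x])`) and cuts
(coded by `(indicator of a lower set, 0)`). -/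
def Pt (O : Type) [LinearOrder O] : Set ((O → Bool) × (O → Bool)) :=
  {p | (∀ i j, i < j → p.1 j = true → p.1 i = true) ∧
       ∀ x, p.2 x = true → (∀ j, p.1 j = true ↔ j < x) ∧ (∀ j, p.2 j = true → j = x)}

/-- the point of an element -/
def ptO {O : Type} [LinearOrder O] (x : O) : Pt O :=
  ⟨(fun j => decide (j < x), fun j => decide (j = x)), by
    refine ⟨fun i j hij hj => ?_, fun y hy => ?_⟩
    · simp only [decide_eq_true_eq] at hj ⊢
      exact hij.trans hj
    · simp only [decide_eq_true_eq] at hy ⊢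
      subst hy
      exact ⟨fun j => Iff.rfl, fun j hj => hj⟩⟩

/-- the distinguished subsets of the point space given by a labelling of `O` -/
def marksO {O : Type} [LinearOrder O] (ℓ : O → ℕ) (l : ℕ) : Set (Pt O) :=
  {p | ∃ x, ℓ x = l ∧ p = ptO x}

/-- evaluation of a formula in the point space of a labelled order -/
def semO (φ : Fm) {O : Type} [LinearOrder O] (ℓ : O → ℕ) : Set (Pt O) := φ.sem (marksO ℓ)

/-! ## Codes -/

/-- `r` codes a strict linear order on `ℕ` -/
structure IsLin (r : ℕ → ℕ → Bool) : Prop where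
  irrefl : ∀ i, r i i = false
  trans : ∀ i j k, r i j = true → r j k = true → r i k = true
  total : ∀ i j, i ≠ j → r i j = true ∨ r j i = true

/-- isomorphism of codes of labelled orders -/
def Iso (κ κ' : (ℕ → ℕ → Bool) × (ℕ → ℕ)) : Prop :=
  ∃ g : ℕ ≃ ℕ, (∀ i j, κ'.1 (g i) (g j) = κ.1 i j) ∧ ∀ i, κ'.2 (g i) = κ.2 i

/-! ## Planar positions -/

/-- weights, total mass `1/2` -/
noncomputable def wt (i : ℕ) : ℝ := (1 / 2 : ℝ) ^ (i + 2)

/-- left end point of the interval `J i` -/
noncomputable def lft (r : ℕ → ℕ → Bool) (i : ℕ) : ℝ := ∑' j, if r j i = true then wt j else 0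

/-- centre of the interval `J i` -/
noncomputable def ctr (r : ℕ → ℕ → Bool) (i : ℕ) : ℝ := lft r i + wt i / 2

/-- the marker `μ i` -/
noncomputable def mk (r : ℕ → ℕ → Bool) (i : ℕ) : ℝ × ℝ := (ctr r i, wt i / 4)

/-- the set of markers with label `l` -/
def marks (r : ℕ → ℕ → Bool) (ℓ : ℕ → ℕ) (l : ℕ) : Set (ℝ × ℝ) := {p | ∃ i, ℓ i = l ∧ p = mk r i}

/-- label of the stage `n` -/
def lam (n : ℕ) : ℕ := (Nat.unpair n).1

/-- the bump of marker `i` at stage `n` -/
noncomputable def bump (r : ℕ → ℕ → Bool) (n i : ℕ) (x : ℝ × ℝ) : ℝ :=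
  (1 / 8) * max 0 (1 - 16 * (n + 1) * max |x.1 - ctr r i| |x.2 - wt i / 4| / wt i)

/-- ideal amplitude at stage `n` -/
noncomputable def astar (κ : (ℕ → ℕ → Bool) × (ℕ → ℕ)) (n : ℕ) (x : ℝ × ℝ) : ℝ :=
  ∑ i ∈ Finset.range (n + 1), if κ.2 i = lam n then bump κ.1 n i x else 0

/-- the rectangle `[-1,1] × [0,1]` -/
def Rect : Set (ℝ × ℝ) := Icc (-1) 1 ×ˢ Icc 0 1

/-! ## Rates and twist maps -/

/-- `e(x) = exp (2π i x)` -/
noncomputable def ee (x : ℝ) : Circle := Circle.exp (2 * Real.pi * x)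

/-- arithmetic data of the construction -/
structure Rates where
  /-- rotation number -/
  α : ℝ
  /-- exponents -/
  q : ℕ → ℕ
  /-- times -/
  N : ℕ → ℕ
  q_mono : StrictMono q
  small : ∀ n, ‖((ee (q n * α) : Circle) : ℂ) - 1‖ ≤ (1 / 2 : ℝ) ^ n
  self : Tendsto (fun n => ‖((ee (q n * N n * α) : Circle) : ℂ) + 1‖) atTop (𝓝 0)
  off : Tendsto (fun n => ∑' m, if m = n then 0 else ‖((ee (q m * N n * α) : Circle) : ℂ) - 1‖)
    atTop (𝓝 0)

/-- `P n` is a continuous approximation of the ideal amplitude -/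
structure Amp (κ : (ℕ → ℕ → Bool) × (ℕ → ℕ)) (P : ℕ → ℝ × ℝ → ℝ) : Prop where
  cont : ∀ n, Continuous (P n)
  approx : ∀ n, ∀ x ∈ Rect, |P n x - astar κ n x| ≤ (1 / 2 : ℝ) ^ n

/-- the angle function -/
noncomputable def Phi (R : Rates) (P : ℕ → ℝ × ℝ → ℝ) (z : ℂ) (x : ℝ × ℝ) : ℝ :=
  ∑' n, 2 * P n x * (((ee (R.q n * R.α) : ℂ) * z ^ (R.q n)).re - (z ^ (R.q n)).re)

/-- topological model of the two sphere -/
def S2 : Type := {p : ℂ × ℝ // ‖p.1‖ ^ 2 + p.2 ^ 2 = 1}

noncomputable instance : MetricSpace S2 := inferInstanceAs (MetricSpace {p : ℂ × ℝ // ‖p.1‖ ^ 2 + p.2 ^ 2 = 1})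

/-- topological model of the manifold -/
abbrev MM : Type := Circle × Circle × S2

/-- rotation of the sphere -/
noncomputable def rotS (c : Circle) (p : S2) : S2 := ⟨((c : ℂ) * p.1.1, p.1.2), by
  have := p.2
  simp only [norm_mul, Circle.norm_coe, one_mul]
  exact this⟩

/-- plane coordinate -/
noncomputable def plane (p : MM) : ℝ × ℝ := ((p.2.1 : ℂ).re, (1 + p.2.2.1.2) / 2)

/-- the twist map -/
noncomputable def tw (R : Rates) (P : ℕ → ℝ × ℝ → ℝ) (p : MM) : MM :=
  (ee R.α * p.1, p.2.1, rotS (ee (Phi R P p.1 (plane p))) p.2.2)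

/-- points of non-equicontinuity of the iterates `f^[N n]`, `lam n = l` -/
def neq {X : Type*} [UniformSpace X] (N : ℕ → ℕ) (f : X → X) (l : ℕ) : Set X :=
  {p | ¬ EquicontinuousAt (fun (n : {n : ℕ // lam n = l}) => f^[N n]) p}

end ANB
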