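import Mathlib

/-!
# Series of products of continuous linear forms are analytic
-/

namespace ANB

open Set Topology Filter
open scoped ContDiff

variable {V : Type*} [NormedAddCommGroup V] [NormedSpace ℝ V]

/-- the multilinear map attached to a list of linear forms -/
noncomputable def mlist (l : List (V →L[ℝ] ℂ)) (d : ℕ) : V [×d]→L[ℝ] ℂ :=
  if h : l.length = d then
    (ContinuousMultilinearMap.mkPiAlgebraFin ℝ d ℂ).compContinuousLinearMap
      (fun i => l.get (Fin.cast h.symm i))
  else 0

theorem mlist_of_ne {l : List (V →L[ℝ] ℂ)} {d : ℕ} (h : l.length ≠ d) : mlist l d = 0 := by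
  simp [mlist, h]

theorem mlist_apply (l : List (V →L[ℝ] ℂ)) (v : V) :
    mlist l l.length (fun _ => v) = (l.map (fun φ => φ v)).prod := by
  rw [mlist, dif_pos rfl]
  simp only [ContinuousMultilinearMap.compContinuousLinearMap_apply,
    ContinuousMultilinearMap.mkPiAlgebraFin_apply]
  congr 1
  conv_rhs => rw [← List.ofFn_get l, List.map_ofFn]
  rfl

theorem norm_mlist_le {l : List (V →L[ℝ] ℂ)} (hl : ∀ φ ∈ l, ‖φ‖ ≤ 1) (d : ℕ) :
    ‖mlist l d‖ ≤ 1 := by
  by_cases h : l.length = d
  · rw [mlist, dif_pos h]
    refine (ContinuousMultilinearMap.norm_compContinuousLinearMap_le _ _).trans ?_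
    have h1 : ‖ContinuousMultilinearMap.mkPiAlgebraFin ℝ d ℂ‖ = 1 :=
      ContinuousMultilinearMap.norm_mkPiAlgebraFin
    rw [h1, one_mul]
    exact Finset.prod_le_one (fun i _ => norm_nonneg _) (fun i _ => hl _ (List.get_mem _ _))
  · rw [mlist_of_ne h]
    simp

variable {T : Type*}

/-- **Analyticity of a series of products of linear forms.** -/
theorem contDiff_series (c : T → ℂ) (l : T → List (V →L[ℝ] ℂ))
    (hl : ∀ t, ∀ φ ∈ l t, ‖φ‖ ≤ 1)
    (hs : ∀ R : ℝ, 0 ≤ R → Summable fun t => ‖c t‖ * R ^ (l t).length) :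
    ContDiff ℝ ω fun v : V => ∑' t, c t * ((l t).map (fun φ => φ v)).prod := by
  -- the homogeneous parts
  have hterm : ∀ (R : ℝ) (hR : 0 ≤ R) (d : ℕ) (t : T),
      ‖c t • mlist (l t) d‖ * R ^ d ≤ if (l t).length = d then ‖c t‖ * R ^ (l t).length else 0 := by
    intro R hR d t
    split_ifs with h
    · rw [norm_smul, ← h]
      gcongr
      calc ‖c t‖ * ‖mlist (l t) (l t).length‖ ≤ ‖c t‖ * 1 := by
            gcongr
            exact norm_mlist_le (hl t) _
        _ = ‖c t‖ := mul_one _
    · have h0 : c t • mlist (l t) d = 0 := by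
        rw [mlist_of_ne h]
        ext v
        simp
      rw [h0, norm_zero, zero_mul]
  have hsumd : ∀ d, Summable fun t => ‖c t • mlist (l t) d‖ := by
    intro d
    refine Summable.of_nonneg_of_le (fun t => norm_nonneg _) (fun t => ?_) (hs 1 zero_le_one)
    have h := hterm 1 zero_le_one d t
    rw [one_pow, mul_one] at h
    refine h.trans ?_
    split_ifs
    · exact le_rfl
    · positivity
  set p : FormalMultilinearSeries ℝ V ℂ := fun d => ∑' t, c t • mlist (l t) d with hp
  have hpn : ∀ (R : ℝ) (hR : 0 ≤ R) (d : ℕ), ‖p d‖ * R ^ d ≤ ∑' t, ‖c t‖ * R ^ (l t).length := by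
    intro R hR d
    have h1 : ‖p d‖ ≤ ∑' t, ‖c t • mlist (l t) d‖ := norm_tsum_le_tsum_norm (hsumd d)
    calc ‖p d‖ * R ^ d ≤ (∑' t, ‖c t • mlist (l t) d‖) * R ^ d := by gcongr
      _ = ∑' t, ‖c t • mlist (l t) d‖ * R ^ d := (tsum_mul_right).symm
      _ ≤ ∑' t, ‖c t‖ * R ^ (l t).length := by
          refine Summable.tsum_le_tsum (fun t => (hterm R hR d t).trans ?_) ?_ (hs R hR)
          · split_ifs
            · exact le_rfl
            · positivity
          · exact (hsumd d).mul_right _
  have hrad : p.radius = ⊤ := by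
    refine ENNReal.eq_top_of_forall_nnreal_le fun r => ?_
    exact p.le_radius_of_bound (∑' t, ‖c t‖ * (r : ℝ) ^ (l t).length) (fun d => hpn r r.2 d)
  have hfps : HasFPowerSeriesOnBall
      (fun v : V => ∑' t, c t * ((l t).map (fun φ => φ v)).prod) p 0 ⊤ := by
    refine ⟨hrad.ge, by simp, fun {y} _ => ?_⟩
    rw [zero_add]
    -- double series
    have hnn : Summable fun q : ℕ × T => ‖(c q.2 • mlist (l q.2) q.1) (fun _ => y)‖ := by
      have hsw : Summable fun q : T × ℕ => ‖(c q.1 • mlist (l q.1) q.2) (fun _ => y)‖ := by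
        rw [summable_prod_of_nonneg (fun q => norm_nonneg _)]
        refine ⟨fun t => ?_, ?_⟩
        · refine summable_of_hasFiniteSupport (Set.Finite.subset (Set.finite_singleton (l t).length)
            (fun d hd => ?_))
          simp only [Function.mem_support, ne_eq] at hd
          by_contra hne
          exact hd (by rw [mlist_of_ne (fun h => hne h.symm)]; simp)
        · refine Summable.of_nonneg_of_le (fun t => tsum_nonneg fun d => norm_nonneg _)
            (fun t => ?_) (hs ‖y‖ (norm_nonneg y))
          rw [tsum_eq_single (l t).length (fun d hd => by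
            rw [mlist_of_ne (fun h => hd h.symm)]; simp)]
          refine (ContinuousMultilinearMap.le_opNorm _ _).trans ?_
          simp only [Finset.prod_const, Finset.card_univ, Fintype.card_fin]
          have := hterm ‖y‖ (norm_nonneg y) (l t).length t
          simpa using this
      exact (Equiv.prodComm ℕ T).symm.summable_iff.1 hsw
    have hsum : Summable fun q : ℕ × T => (c q.2 • mlist (l q.2) q.1) (fun _ => y) :=
      hnn.of_norm
    have h1 : HasSum (fun d : ℕ => ∑' t, (c t • mlist (l t) d) (fun _ => y))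
        (∑' q : ℕ × T, (c q.2 • mlist (l q.2) q.1) (fun _ => y)) :=
      hsum.hasSum.prod_fiberwise (fun d => (hsum.prod_factor d).hasSum)
    have h2 : (fun d : ℕ => p d (fun _ => y)) =
        fun d : ℕ => ∑' t, (c t • mlist (l t) d) (fun _ => y) := by
      funext d
      have h3 : Summable fun t => c t • mlist (l t) d := (hsumd d).of_norm
      exact ((ContinuousMultilinearMap.apply ℝ (fun _ : Fin d => V) ℂ (fun _ => y)).map_tsum h3)
    rw [h2]
    have hsw : Summable fun q : T × ℕ => (c q.1 • mlist (l q.1) q.2) (fun _ => y) := by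
      have := (Equiv.prodComm T ℕ).summable_iff.2 hsum
      simpa [Function.comp_def] using this
    have h4 : ∑' q : ℕ × T, (c q.2 • mlist (l q.2) q.1) (fun _ => y) =
        ∑' q : T × ℕ, (c q.1 • mlist (l q.1) q.2) (fun _ => y) := by
      rw [← (Equiv.prodComm T ℕ).tsum_eq]
      rfl
    have h5 : ∑' q : ℕ × T, (c q.2 • mlist (l q.2) q.1) (fun _ => y) =
        ∑' t, c t * ((l t).map (fun φ => φ y)).prod := by
      rw [h4, hsw.tsum_prod]
      refine tsum_congr fun t => ?_
      rw [tsum_eq_single (l t).length (fun d hd => by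
              rw [mlist_of_ne (fun h => hd h.symm)]; simp)]
      simp only [smul_apply, smul_eq_mul]
      rw [mlist_apply]
    rw [← h5]
    exact h1
  have han : AnalyticOnNhd ℝ (fun v : V => ∑' t, c t * ((l t).map (fun φ => φ v)).prod) univ := by
    have := hfps.analyticOnNhd
    simpa using this
  exact han.contDiff

end ANB
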