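import Pool.Agent.helper4.AN.Poly
import Pool.Agent.helper4.AN.Series

/-!
# The angle function as an analytic function of code and point
-/

namespace ANB

open Set Topology Filter
open scoped ContDiff BoundedContinuousFunction

/-- codes -/
abbrev Cd : Type := (ℕ → ℕ → Bool) × (ℕ → ℕ)

/-- Banach space of parameters -/
abbrev VP : Type := (ℕ × ℕ) →ᵇ ℝ

/-- Banach space for the angle function -/
abbrev VV : Type := VP × ℂ × ℝ × ℝ

/-! ### the embedding of the codes -/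

/-- point of the parameter space given by a code -/
noncomputable def chi (κ : Cd) : VP :=
  BoundedContinuousFunction.ofNormedAddCommGroupDiscrete
    (fun p : ℕ × ℕ => if st κ p.1 = p.2 then (1 / 2 : ℝ) ^ p.1 else 0) 1 (by
      intro p
      split_ifs
      · rw [norm_pow]
        exact pow_le_one₀ (norm_nonneg _) (by norm_num)
      · simp)

theorem chi_apply (κ : Cd) (p : ℕ × ℕ) :
    chi κ p = if st κ p.1 = p.2 then (1 / 2 : ℝ) ^ p.1 else 0 := rfl

theorem eventually_st_eq (κ : Cd) (n : ℕ) : ∀ᶠ κ' in 𝓝 κ, st κ' n = st κ n := by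
  have h1 : ∀ᶠ κ' : Cd in 𝓝 κ, ∀ j < nb n, ∀ i ≤ n, κ'.1 j i = κ.1 j i := by
    have : ∀ j ∈ Set.Iio (nb n), ∀ᶠ κ' : Cd in 𝓝 κ, ∀ i ≤ n, κ'.1 j i = κ.1 j i := by
      intro j _
      have : ∀ i ∈ Set.Iic n, ∀ᶠ κ' : Cd in 𝓝 κ, κ'.1 j i = κ.1 j i := by
        intro i _
        have hc : Continuous fun κ' : Cd => κ'.1 j i := by fun_prop
        exact hc.continuousAt.eventually (show ∀ᶠ b in 𝓝 (κ.1 j i), b = κ.1 j i by simp [nhds_discrete])
      exact ((Set.finite_Iic n).eventually_all).2 this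
    exact ((Set.finite_Iio (nb n)).eventually_all).2 this
  have h2 : ∀ᶠ κ' : Cd in 𝓝 κ, ∀ i ≤ n, κ'.2 i = κ.2 i := by
    have : ∀ i ∈ Set.Iic n, ∀ᶠ κ' : Cd in 𝓝 κ, κ'.2 i = κ.2 i := by
      intro i _
      have hc : Continuous fun κ' : Cd => κ'.2 i := by fun_prop
      exact hc.continuousAt.eventually (show ∀ᶠ b in 𝓝 (κ.2 i), b = κ.2 i by simp [nhds_discrete])
    exact ((Set.finite_Iic n).eventually_all).2 this
  filter_upwards [h1, h2] with κ' h1 h2
  rw [st_eq_iff]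
  exact ⟨h1, fun i hi => by rw [h2 i hi]⟩

theorem continuous_chi : Continuous chi := by
  rw [continuous_iff_continuousAt]
  intro κ
  rw [ContinuousAt, Metric.tendsto_nhds]
  intro ε hε
  obtain ⟨N, hN⟩ : ∃ N : ℕ, (1 / 2 : ℝ) ^ N < ε := exists_pow_lt_of_lt_one hε (by norm_num)
  have h1 : ∀ᶠ κ' : Cd in 𝓝 κ, ∀ n < N, st κ' n = st κ n := by
    have : ∀ n ∈ Set.Iio N, ∀ᶠ κ' : Cd in 𝓝 κ, st κ' n = st κ n :=
      fun n _ => eventually_st_eq κ n
    exact ((Set.finite_Iio N).eventually_all).2 this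
  filter_upwards [h1] with κ' h
  refine lt_of_le_of_lt ?_ hN
  rw [BoundedContinuousFunction.dist_le (by positivity)]
  rintro ⟨n, s⟩
  rw [chi_apply, chi_apply]
  by_cases hn : n < N
  · simp only [h n hn, dist_self]
    positivity
  · have h3 : (1 / 2 : ℝ) ^ n ≤ (1 / 2) ^ N :=
      pow_le_pow_of_le_one (by norm_num) (by norm_num) (by omega)
    have h4 : (0 : ℝ) < (1 / 2) ^ n := by positivity
    simp only
    split_ifs
    · rw [dist_self]; positivity
    · rw [Real.dist_eq, sub_zero, abs_of_pos h4]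
      exact h3
    · rw [Real.dist_eq, zero_sub, abs_neg, abs_of_pos h4]
      exact h3
    · rw [dist_self]; positivity

/-! ### the terms -/

/-- finite set containing the states of stage `n` -/
def Sn (n : ℕ) : Finset ℕ :=
  (((Finset.range (nb n) ×ˢ Finset.range (n + 1)).powerset ×ˢ
    (Finset.range (n + 1)).powerset).image Encodable.encode)

theorem st_mem (κ : Cd) (n : ℕ) : st κ n ∈ Sn n := by
  rw [Sn, Finset.mem_image]
  refine ⟨_, ?_, rfl⟩
  rw [Finset.mem_product, Finset.mem_powerset, Finset.mem_powerset]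
  exact ⟨Finset.filter_subset _ _, Finset.filter_subset _ _⟩

/-- index set of the series: stage, state, monomial -/
abbrev TT : Type := ℕ × ℕ × (Fin 2 →₀ ℕ)

/-- index set at stage `n` -/
noncomputable def Tn (n : ℕ) : Finset (ℕ × (Fin 2 →₀ ℕ)) :=
  (Sn n).sigma (fun s => (polyn n s).support) |>.map (Equiv.sigmaEquivProd _ _).toEmbedding

theorem mem_Tn {n s : ℕ} {m : Fin 2 →₀ ℕ} : (s, m) ∈ Tn n ↔ s ∈ Sn n ∧ m ∈ (polyn n s).support := by
  rw [Tn, Finset.mem_map_equiv]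
  simp

/-- majorant of stage `n` -/
noncomputable def maj (n q : ℕ) (R : ℝ) : ℝ :=
  ∑ p ∈ Tn n, |(polyn n p.1).coeff p.2| * R ^ (1 + p.2 0 + p.2 1 + q)

/-- the growth function of the construction -/
noncomputable def KK (n q : ℕ) : ℕ := ⌈2 * 2 ^ n * maj n q (n + 1)⌉₊

/-- the rates of the construction -/
noncomputable def RR : Rates := (exists_rates KK).choose

theorem RR_spec (n : ℕ) :
    ‖((ee (RR.q n * RR.α) : Circle) : ℂ) - 1‖ * (KK n (RR.q n) + 1) ≤ (1 / 2 : ℝ) ^ n :=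
  (exists_rates KK).choose_spec n

open Classical in
/-- coefficients -/
noncomputable def cc (t : TT) : ℂ :=
  if (t.2.1, t.2.2) ∈ Tn t.1 then
    2 * 2 ^ t.1 * (((ee (RR.q t.1 * RR.α) : Circle) : ℂ) - 1) *
      (((polyn t.1 t.2.1).coeff t.2.2 : ℝ) : ℂ)
  else 0

/-- the linear form `χ ↦ χ p` -/
noncomputable def fchi (p : ℕ × ℕ) : VV →L[ℝ] ℂ :=
  Complex.ofRealCLM.comp ((BoundedContinuousFunction.evalCLM ℝ p).comp
    (ContinuousLinearMap.fst ℝ VP (ℂ × ℝ × ℝ)))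

/-- the linear form `z` -/
noncomputable def fz : VV →L[ℝ] ℂ :=
  (ContinuousLinearMap.fst ℝ ℂ (ℝ × ℝ)).comp (ContinuousLinearMap.snd ℝ VP (ℂ × ℝ × ℝ))

/-- the linear form `s` -/
noncomputable def fs : VV →L[ℝ] ℂ :=
  Complex.ofRealCLM.comp ((ContinuousLinearMap.fst ℝ ℝ ℝ).comp
    ((ContinuousLinearMap.snd ℝ ℂ (ℝ × ℝ)).comp (ContinuousLinearMap.snd ℝ VP (ℂ × ℝ × ℝ))))

/-- the linear form `ρ` -/
noncomputable def fρ : VV →L[ℝ] ℂ :=
  Complex.ofRealCLM.comp ((ContinuousLinearMap.snd ℝ ℝ ℝ).comp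
    ((ContinuousLinearMap.snd ℝ ℂ (ℝ × ℝ)).comp (ContinuousLinearMap.snd ℝ VP (ℂ × ℝ × ℝ))))

theorem norm_fchi_le (p : ℕ × ℕ) : ‖fchi p‖ ≤ 1 := by
  refine ContinuousLinearMap.opNorm_le_bound _ zero_le_one fun v => ?_
  rw [one_mul]
  have h1 : ‖fchi p v‖ = ‖v.1 p‖ := by simp [fchi]
  rw [h1]
  exact (v.1.norm_coe_le_norm p).trans (norm_fst_le v)

theorem norm_fz_le : ‖fz‖ ≤ 1 := by
  refine ContinuousLinearMap.opNorm_le_bound _ zero_le_one fun v => ?_
  rw [one_mul]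
  have h1 : ‖fz v‖ = ‖v.2.1‖ := by simp [fz]
  rw [h1]
  exact (norm_fst_le v.2).trans (norm_snd_le v)

theorem norm_fs_le : ‖fs‖ ≤ 1 := by
  refine ContinuousLinearMap.opNorm_le_bound _ zero_le_one fun v => ?_
  rw [one_mul]
  have h1 : ‖fs v‖ = ‖v.2.2.1‖ := by simp [fs]
  rw [h1]
  exact (norm_fst_le v.2.2).trans ((norm_snd_le v.2).trans (norm_snd_le v))

theorem norm_fρ_le : ‖fρ‖ ≤ 1 := by
  refine ContinuousLinearMap.opNorm_le_bound _ zero_le_one fun v => ?_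
  rw [one_mul]
  have h1 : ‖fρ v‖ = ‖v.2.2.2‖ := by simp [fρ]
  rw [h1]
  exact (norm_snd_le v.2.2).trans ((norm_snd_le v.2).trans (norm_snd_le v))

/-- the list of linear forms of a term -/
noncomputable def ll (t : TT) : List (VV →L[ℝ] ℂ) :=
  fchi (t.1, t.2.1) :: (List.replicate (t.2.2 0) fs ++ List.replicate (t.2.2 1) fρ ++
    List.replicate (RR.q t.1) fz)

theorem ll_length (t : TT) : (ll t).length = 1 + t.2.2 0 + t.2.2 1 + RR.q t.1 := by
  simp [ll]
  ring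

theorem ll_norm (t : TT) : ∀ φ ∈ ll t, ‖φ‖ ≤ 1 := by
  intro φ hφ
  rw [ll, List.mem_cons, List.mem_append, List.mem_append, List.mem_replicate, List.mem_replicate,
    List.mem_replicate] at hφ
  rcases hφ with h | (h | h) | h
  · rw [h]; exact norm_fchi_le _
  · rw [h.2]; exact norm_fs_le
  · rw [h.2]; exact norm_fρ_le
  · rw [h.2]; exact norm_fz_le

theorem ll_prod (t : TT) (χ : VP) (z : ℂ) (x : ℝ × ℝ) :
    ((ll t).map (fun φ => φ (χ, z, x))).prod =
      (χ (t.1, t.2.1) : ℂ) * ((x.1 : ℂ) ^ (t.2.2 0) * (x.2 : ℂ) ^ (t.2.2 1)) * z ^ (RR.q t.1) := by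
  simp [ll, fchi, fz, fs, fρ, List.prod_replicate]
  ring

/-- the complex angle function -/
noncomputable def G (v : VV) : ℂ := ∑' t, cc t * ((ll t).map (fun φ => φ v)).prod

theorem norm_cc (t : TT) : ‖cc t‖ = if (t.2.1, t.2.2) ∈ Tn t.1 then
    2 * 2 ^ t.1 * ‖((ee (RR.q t.1 * RR.α) : Circle) : ℂ) - 1‖ * |(polyn t.1 t.2.1).coeff t.2.2|
    else 0 := by
  unfold cc
  split_ifs
  · simp
  · simp

theorem summable_cc (R : ℝ) (hR : 0 ≤ R) : Summable fun t => ‖cc t‖ * R ^ (ll t).length := by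
  have hfin : ∀ n : ℕ, ∀ p ∉ Tn n, ‖cc (n, p)‖ * R ^ (ll (n, p)).length = 0 := by
    intro n p hp
    rw [norm_cc, if_neg hp, zero_mul]
  rw [summable_prod_of_nonneg (fun t => by positivity)]
  refine ⟨fun n => summable_of_ne_finset_zero (s := Tn n) (hfin n), ?_⟩
  have hsum : ∀ n : ℕ, ∑' p, ‖cc (n, p)‖ * R ^ (ll (n, p)).length =
      2 * 2 ^ n * ‖((ee (RR.q n * RR.α) : Circle) : ℂ) - 1‖ * maj n (RR.q n) R := by
    intro n
    rw [tsum_eq_sum (hfin n), maj, Finset.mul_sum]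
    refine Finset.sum_congr rfl fun p hp => ?_
    rw [norm_cc, if_pos hp, ll_length]
    ring
  simp_rw [hsum]
  have hmaj0 : ∀ (n q : ℕ) (R : ℝ), 0 ≤ R → 0 ≤ maj n q R := fun n q R hR =>
    Finset.sum_nonneg fun p _ => by positivity
  have hev : ∀ᶠ n : ℕ in atTop,
      ‖2 * 2 ^ n * ‖((ee (RR.q n * RR.α) : Circle) : ℂ) - 1‖ * maj n (RR.q n) R‖ ≤
        (1 / 2 : ℝ) ^ n := by
    filter_upwards [eventually_ge_atTop ⌈R⌉₊] with n hn
    have hRn : R ≤ n + 1 := by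
      have := Nat.le_ceil R
      have h2 : (⌈R⌉₊ : ℝ) ≤ n := by exact_mod_cast hn
      linarith
    have h1 : maj n (RR.q n) R ≤ maj n (RR.q n) (n + 1) := by
      refine Finset.sum_le_sum fun p _ => ?_
      gcongr
    have h0 := hmaj0 n (RR.q n) R hR
    rw [Real.norm_of_nonneg (by positivity)]
    refine le_trans ?_ (RR_spec n)
    have h2 : 2 * 2 ^ n * maj n (RR.q n) (n + 1) ≤ KK n (RR.q n) := Nat.le_ceil _
    calc 2 * 2 ^ n * ‖((ee (RR.q n * RR.α) : Circle) : ℂ) - 1‖ * maj n (RR.q n) R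
        = ‖((ee (RR.q n * RR.α) : Circle) : ℂ) - 1‖ * (2 * 2 ^ n * maj n (RR.q n) R) := by ring
      _ ≤ ‖((ee (RR.q n * RR.α) : Circle) : ℂ) - 1‖ * (KK n (RR.q n) + 1) := by
          gcongr
          have : 2 * 2 ^ n * maj n (RR.q n) R ≤ 2 * 2 ^ n * maj n (RR.q n) (n + 1) := by gcongr
          linarith
  exact Summable.of_norm_bounded_eventually_nat
    (summable_geometric_of_lt_one (by norm_num) (by norm_num)) hev

theorem contDiff_G : ContDiff ℝ ω G := contDiff_series cc ll ll_norm summable_cc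

/-- the angle function on the Banach space -/
noncomputable def Gre (v : VV) : ℝ := (G v).re

theorem contDiff_Gre : ContDiff ℝ ω Gre := Complex.reCLM.contDiff.comp contDiff_G

theorem pev_eq (p : MvPolynomial (Fin 2) ℝ) (x : ℝ × ℝ) :
    ((pev p x : ℝ) : ℂ) = ∑ m ∈ p.support,
      ((p.coeff m : ℝ) : ℂ) * ((x.1 : ℂ) ^ (m 0) * (x.2 : ℂ) ^ (m 1)) := by
  rw [pev, MvPolynomial.eval_eq']
  push_cast
  refine Finset.sum_congr rfl fun m _ => ?_
  simp [Fin.prod_univ_two]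

/-- the angle function of a code is the restriction of `Gre` -/
theorem Gre_chi (κ : Cd) (z : ℂ) (x : ℝ × ℝ) : Gre (chi κ, z, x) = Phi RR (Pn κ) z x := by
  have hsummable : Summable fun t => cc t * ((ll t).map (fun φ => φ (chi κ, z, x))).prod := by
    refine Summable.of_norm_bounded (summable_cc ‖((chi κ, z, x) : VV)‖ (norm_nonneg _)) fun t => ?_
    rw [norm_mul]
    gcongr
    have : ∀ l : List (VV →L[ℝ] ℂ), (∀ φ ∈ l, ‖φ‖ ≤ 1) →
        ‖(l.map (fun φ => φ (chi κ, z, x))).prod‖ ≤ ‖((chi κ, z, x) : VV)‖ ^ l.length := by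
      intro l
      induction l with
      | nil => intro _; simp
      | cons φ l ih =>
        intro h
        rw [List.map_cons, List.prod_cons, norm_mul, List.length_cons, pow_succ, mul_comm]
        have h1 : ‖φ (chi κ, z, x)‖ ≤ ‖((chi κ, z, x) : VV)‖ := by
          refine (φ.le_opNorm _).trans ?_
          have := h φ (by simp)
          calc ‖φ‖ * ‖((chi κ, z, x) : VV)‖ ≤ 1 * ‖((chi κ, z, x) : VV)‖ := by gcongr
            _ = _ := one_mul _
        have h2 := ih (fun ψ hψ => h ψ (by simp [hψ]))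
        gcongr
    exact this _ (ll_norm t)
  have inner : ∀ n : ℕ, ∑' p, cc (n, p) * ((ll (n, p)).map (fun φ => φ (chi κ, z, x))).prod =
      2 * (Pn κ n x : ℂ) * ((((ee (RR.q n * RR.α) : Circle) : ℂ) - 1) * z ^ (RR.q n)) := by
    intro n
    have hzero : ∀ p ∉ ({st κ n} : Finset ℕ) ×ˢ (polyn n (st κ n)).support,
        cc (n, p) * ((ll (n, p)).map (fun φ => φ (chi κ, z, x))).prod = 0 := by
      rintro ⟨s, m⟩ hp
      rw [ll_prod]
      by_cases hs : st κ n = s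
      · have hm : (s, m) ∉ Tn n := by
          rw [mem_Tn]
          rintro ⟨_, h2⟩
          refine hp ?_
          rw [Finset.mem_product, Finset.mem_singleton]
          exact ⟨hs.symm, by rw [hs]; exact h2⟩
        rw [cc, if_neg hm, zero_mul]
      · have : chi κ (n, s) = 0 := by rw [chi_apply, if_neg hs]
        simp [this]
    rw [tsum_eq_sum hzero, Finset.sum_product, Finset.sum_singleton]
    rw [Pn, pev_eq]
    have e1 : ∀ m ∈ (polyn n (st κ n)).support,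
        cc (n, st κ n, m) * ((ll (n, st κ n, m)).map (fun φ => φ (chi κ, z, x))).prod =
        2 * ((((polyn n (st κ n)).coeff m : ℝ) : ℂ) * ((x.1 : ℂ) ^ (m 0) * (x.2 : ℂ) ^ (m 1))) *
        ((((ee (RR.q n * RR.α) : Circle) : ℂ) - 1) * z ^ (RR.q n)) := by
      intro m hm
      have hmem : (st κ n, m) ∈ Tn n := mem_Tn.2 ⟨st_mem κ n, hm⟩
      rw [ll_prod, cc, if_pos hmem]
      have h2 : chi κ (n, st κ n) = (1 / 2 : ℝ) ^ n := by rw [chi_apply, if_pos rfl]
      simp only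
      rw [h2]
      push_cast
      have h3 : (2 : ℂ) ^ n * (1 / 2) ^ n = 1 := by rw [← mul_pow]; norm_num
      linear_combination (2 * ((ee (RR.q n * RR.α) : ℂ) - 1) *
        (((polyn n (st κ n)).coeff m : ℝ) : ℂ) * ((x.1 : ℂ) ^ (m 0) * (x.2 : ℂ) ^ (m 1)) *
        z ^ (RR.q n)) * h3
    rw [Finset.sum_congr rfl e1, ← Finset.sum_mul, ← Finset.mul_sum]
  have hG : G (chi κ, z, x) = ∑' n : ℕ, 2 * (Pn κ n x : ℂ) *
      ((((ee (RR.q n * RR.α) : Circle) : ℂ) - 1) * z ^ (RR.q n)) := by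
    rw [G, hsummable.tsum_prod]
    exact tsum_congr inner
  have hsum2 : Summable fun n : ℕ => 2 * (Pn κ n x : ℂ) *
      ((((ee (RR.q n * RR.α) : Circle) : ℂ) - 1) * z ^ (RR.q n)) := by
    have := hsummable.prod
    exact this.congr fun n => inner n
  rw [Gre, hG, Phi]
  have h4 := Complex.reCLM.map_tsum hsum2
  simp only [Complex.reCLM_apply] at h4
  rw [h4]
  refine tsum_congr fun n => ?_
  have h5 : (2 : ℂ) * (Pn κ n x : ℂ) * ((((ee (RR.q n * RR.α) : Circle) : ℂ) - 1) * z ^ (RR.q n)) =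
      ((2 * Pn κ n x : ℝ) : ℂ) * (((ee (RR.q n * RR.α) : Circle) : ℂ) * z ^ (RR.q n) - z ^ (RR.q n)) := by
    push_cast
    ring
  rw [h5, Complex.re_ofReal_mul, Complex.sub_re]

end ANB
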