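import Pool.Agent.helper4.AN.Defs

/-!
# The diagonal argument
-/

namespace ANB

open Set Topology Filter MeasureTheory

/-- codes -/
abbrev Cod : Type := (ℕ → ℕ → Bool) × (ℕ → ℕ)

/-- Borel structure on the space of continuous maps -/
instance instMeasC : MeasurableSpace C(ℕ → Bool, ℕ → ℕ) := borel _

instance instBorelC : BorelSpace C(ℕ → Bool, ℕ → ℕ) := ⟨rfl⟩

/-- space of diagonal parameters -/
abbrev QQ : Type := (ℕ → ℕ → Bool) × C(ℕ → Bool, ℕ → ℕ) × (ℕ → ℕ)

instance instSBCod : StandardBorelSpace Cod := inferInstance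

instance instBCod : BorelSpace Cod := inferInstance

instance instSCCod : SecondCountableTopology Cod := inferInstance

instance instBCodCod : BorelSpace (Cod × Cod) := Prod.borelSpace

instance instSBQ0 : StandardBorelSpace (C(ℕ → Bool, ℕ → ℕ) × (ℕ → ℕ)) := inferInstance

instance instSBQ : StandardBorelSpace QQ := StandardBorelSpace.prod

theorem not_countable_cantor : ¬ Countable (ℕ → Bool) := by
  intro h
  obtain ⟨f, hf⟩ := h.exists_injective_nat
  classical
  refine Function.cantor_injective (fun s : Set ℕ => f (fun n => decide (n ∈ s))) ?_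
  intro s t hst
  have := hf hst
  ext n
  have h2 := congrFun this n
  simpa using h2

theorem not_countable_QQ : ¬ Countable QQ := by
  intro hc
  have hinj : Function.Injective (fun x : ℕ → Bool =>
      (((fun _ => x), ContinuousMap.const _ (fun _ => 0), fun _ => 0) : QQ)) := by
    intro x y hxy
    have := congrArg (fun q : QQ => q.1 0) hxy
    exact this
  exact not_countable_cantor hinj.countable

/-- coding of the diagonal parameters by points of the Cantor space -/
noncomputable def DD : (ℕ → Bool) ≃ᵐ QQ :=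
  PolishSpace.measurableEquivOfNotCountable not_countable_cantor not_countable_QQ

/-- the diagonal map -/
noncomputable def diag (x : ℕ → Bool) : Cod × Cod :=
  (((DD x).1, (DD x).2.1 x), ((DD x).1, (DD x).2.2))

theorem measurable_diag : Measurable diag := by
  have h0 : Measurable fun x => DD x := DD.measurable
  have h1 : Measurable fun x => (DD x).1 := measurable_fst.comp h0
  have h2 : Measurable fun x => (DD x).2.1 := measurable_fst.comp (measurable_snd.comp h0)
  have h3 : Measurable fun x => (DD x).2.2 := measurable_snd.comp (measurable_snd.comp h0)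
  have hev : Measurable fun p : C(ℕ → Bool, ℕ → ℕ) × (ℕ → Bool) => p.1 p.2 :=
    (continuous_eval (F := C(ℕ → Bool, ℕ → ℕ)) (X := ℕ → Bool) (Y := ℕ → ℕ)).measurable
  have h4 : Measurable fun x => (DD x).2.1 x := hev.comp (h2.prodMk measurable_id)
  exact (h1.prodMk h4).prodMk (h1.prodMk h3)

/-- **The diagonal argument.**  Let `F` be a continuous map from the codes to a space `Y` and `E`
a symmetric and transitive relation on `Y` such that isomorphic codes have `E`-related images, and
`E`-related images see the same formulas.  If every Borel set of the Cantor space is coded by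
labelled orders as in `comb_planar`, then `E` is not Borel. -/
theorem diag_abstract
    (comb : ∀ B : Set (ℕ → Bool), MeasurableSet B → ∃ (r : ℕ → ℕ → Bool)
      (L : (ℕ → Bool) → ℕ → ℕ) (ℓp ℓm : ℕ → ℕ) (φ : Fm), IsLin r ∧ Continuous L ∧
      (∀ x ∈ B, Iso (r, L x) (r, ℓp)) ∧ (∀ x ∉ B, Iso (r, L x) (r, ℓm)) ∧
      (φ.sem (marks r ℓp)).Nonempty ∧ φ.sem (marks r ℓm) = ∅)
    {Y : Type*} [TopologicalSpace Y] (F : Cod → Y) (hF : Continuous F) (E : Set (Y × Y))
    (hsymm : ∀ a b, (a, b) ∈ E → (b, a) ∈ E)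
    (htrans : ∀ a b c, (a, b) ∈ E → (b, c) ∈ E → (a, c) ∈ E)
    (hiso : ∀ κ κ' : Cod, IsLin κ.1 → IsLin κ'.1 → Iso κ κ' → (F κ, F κ') ∈ E)
    (hsem : ∀ κ κ' : Cod, IsLin κ.1 → IsLin κ'.1 → (F κ, F κ') ∈ E → ∀ φ : Fm,
      (φ.sem (marks κ.1 κ.2)).Nonempty → (φ.sem (marks κ'.1 κ'.2)).Nonempty) :
    ¬ MeasurableSet[borel (Y × Y)] E := by
  intro hE
  have hFF : Continuous fun p : Cod × Cod => (F p.1, F p.2) :=
    (hF.comp continuous_fst).prodMk (hF.comp continuous_snd)
  have hC : MeasurableSet {p : Cod × Cod | (F p.1, F p.2) ∈ E} := by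
    rw [BorelSpace.measurable_eq (α := Cod × Cod)]
    exact hFF.borel_measurable hE
  have hB : MeasurableSet {x : ℕ → Bool | ¬ (F (diag x).1, F (diag x).2) ∈ E} :=
    (measurable_diag hC).compl
  obtain ⟨r, L, ℓp, ℓm, φ, hr, hL, hp, hm, hne, hem⟩ := comb _ hB
  set x : ℕ → Bool := DD.symm (r, ⟨L, hL⟩, ℓp) with hx
  have hdx : diag x = ((r, L x), (r, ℓp)) := by
    rw [diag, hx, MeasurableEquiv.apply_symm_apply]
    rfl
  by_cases hxB : x ∈ {x : ℕ → Bool | ¬ (F (diag x).1, F (diag x).2) ∈ E}
  · have h1 := hiso (r, L x) (r, ℓp) hr hr (hp x hxB)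
    refine hxB ?_
    rw [hdx]
    exact h1
  · have h1 := hiso (r, L x) (r, ℓm) hr hr (hm x hxB)
    have h2 : (F (r, L x), F (r, ℓp)) ∈ E := by
      simp only [mem_ofPred_eq, not_not] at hxB
      rw [hdx] at hxB
      exact hxB
    have h3 := htrans _ _ _ (hsymm _ _ h2) h1
    have h4 := hsem (r, ℓp) (r, ℓm) hr hr h3 φ hne
    simp only at h4
    rw [hem] at h4
    exact Set.not_nonempty_empty h4

end ANB
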