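import Pool.Agent.helper4.AN.Defs

/-!
# Arithmetic of the construction
-/

namespace ANB

open Set Topology Filter

theorem ee_add (x y : ℝ) : ee (x + y) = ee x * ee y := by
  rw [ee, ee, ee, mul_add, Circle.exp_add]

theorem ee_zero : ee 0 = 1 := by rw [ee, mul_zero, Circle.exp_zero]

theorem ee_int (n : ℤ) : ee n = 1 := by rw [ee, Circle.exp_two_pi_mul_int]

theorem ee_nat (n : ℕ) : ee n = 1 := by
  have := ee_int n
  simpa using this

theorem ee_nat_add (n : ℕ) (x : ℝ) : ee (n + x) = ee x := by rw [ee_add, ee_nat, one_mul]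

theorem ee_neg (x : ℝ) : ee (-x) = (ee x)⁻¹ := by
  rw [eq_inv_iff_mul_eq_one, ← ee_add, neg_add_cancel, ee_zero]

theorem ee_sub (x y : ℝ) : ee (x - y) = ee x * (ee y)⁻¹ := by
  rw [sub_eq_add_neg, ee_add, ee_neg]

theorem ee_mul_nat (n : ℕ) (x : ℝ) : ee (n * x) = ee x ^ n := by
  induction n with
  | zero => simp [ee_zero]
  | succ n ih => rw [Nat.cast_succ, add_mul, one_mul, ee_add, ih, pow_succ]

theorem continuous_ee : Continuous ee := by
  unfold ee
  exact Circle.exp.continuous.comp (by fun_prop)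

theorem coe_ee (x : ℝ) : ((ee x : Circle) : ℂ) = Complex.exp (Complex.I * ((2 * Real.pi * x : ℝ) : ℂ)) := by
  rw [ee, Circle.coe_exp, mul_comm]

theorem norm_ee_sub_one_le (x : ℝ) : ‖((ee x : Circle) : ℂ) - 1‖ ≤ 7 * |x| := by
  rw [coe_ee]
  refine Real.norm_exp_I_mul_ofReal_sub_one_le.trans ?_
  rw [Real.norm_eq_abs, abs_mul, abs_mul, abs_two, abs_of_pos Real.pi_pos]
  have := Real.pi_lt_d2
  have h := abs_nonneg x
  nlinarith

theorem norm_ee_sub_le (x y : ℝ) : ‖((ee x : Circle) : ℂ) - ee y‖ ≤ 7 * |x - y| := by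
  have h : ((ee x : Circle) : ℂ) - ee y = (((ee (x - y) : Circle) : ℂ) - 1) * (ee y : ℂ) := by
    rw [ee_sub, sub_mul, one_mul, Circle.coe_mul, mul_assoc, ← Circle.coe_mul, inv_mul_cancel]
    simp
  rw [h, norm_mul, Circle.norm_coe, mul_one]
  exact norm_ee_sub_one_le _

theorem ee_half : ((ee (1 / 2) : Circle) : ℂ) = -1 := by
  rw [coe_ee]
  rw [show (2 * Real.pi * (1 / 2) : ℝ) = Real.pi by ring, mul_comm]
  exact Complex.exp_pi_mul_I

section Seq

variable (K : ℕ → ℕ → ℕ)

/-- auxiliary multiplier -/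
def bK (n b : ℕ) : ℕ := 16 * 2 ^ n * (K n b + 1)

/-- the sequence of exponents -/
def bs : ℕ → ℕ
  | 0 => 1
  | n + 1 => 2 * (bs n) ^ 2 * bK K n (bs n)

/-- the times -/
def bN (n : ℕ) : ℕ := bs K n * bK K n (bs K n)

theorem bK_ge (n b : ℕ) : 16 * 2 ^ n ≤ bK K n b := by
  unfold bK
  exact Nat.le_mul_of_pos_right _ (Nat.succ_pos _)

theorem bs_succ (n : ℕ) : bs K (n + 1) = 2 * bs K n * bN K n := by
  rw [bs, bN]; ring

theorem bs_pos (n : ℕ) : 0 < bs K n := by
  induction n with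
  | zero => simp [bs]
  | succ n ih =>
    rw [bs]
    have := bK_ge K n (bs K n)
    have h2 : 0 < 16 * 2 ^ n := by positivity
    have : 0 < bK K n (bs K n) := by omega
    positivity

theorem bN_pos (n : ℕ) : 0 < bN K n := by
  have := bK_ge K n (bs K n)
  have h2 : 0 < 16 * 2 ^ n := by positivity
  have h3 : 0 < bK K n (bs K n) := by omega
  have := bs_pos K n
  unfold bN
  positivity

theorem bs_ge_two_pow (n : ℕ) : 2 ^ n ≤ bs K n := by
  induction n with
  | zero => simp [bs]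
  | succ n ih =>
    rw [bs_succ, pow_succ]
    have h1 := bs_pos K n
    have h2 := bN_pos K n
    calc 2 ^ n * 2 ≤ bs K n * 2 := Nat.mul_le_mul_right _ ih
      _ = 2 * bs K n * 1 := by ring
      _ ≤ 2 * bs K n * bN K n := Nat.mul_le_mul_left _ h2

theorem two_mul_bs_le (n : ℕ) : 2 * bs K n ≤ bs K (n + 1) := by
  rw [bs_succ]
  exact Nat.le_mul_of_pos_right _ (bN_pos K n)

theorem bs_strictMono : StrictMono (bs K) := by
  refine strictMono_nat_of_lt_succ fun n => ?_
  have h1 := bs_pos K n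
  have h2 := two_mul_bs_le K n
  omega

theorem bs_dvd_succ (n : ℕ) : bs K n ∣ bs K (n + 1) := by
  rw [bs_succ]
  exact ⟨2 * bN K n, by ring⟩

theorem bs_dvd {m n : ℕ} (h : m ≤ n) : bs K m ∣ bs K n := by
  induction h with
  | refl => exact dvd_rfl
  | step _ ih => exact ih.trans (bs_dvd_succ K _)

/-- partial sums -/
noncomputable def bS (m : ℕ) : ℝ := ∑ k ∈ Finset.range m, 1 / (bs K (k + 1) : ℝ)

theorem inv_bs_le (m j : ℕ) : 1 / (bs K (m + j) : ℝ) ≤ 1 / (bs K m : ℝ) * (1 / 2) ^ j := by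
  induction j with
  | zero => simp
  | succ j ih =>
    have h1 : (2 * bs K (m + j) : ℝ) ≤ bs K (m + j + 1) := by exact_mod_cast two_mul_bs_le K (m + j)
    have h2 : (0 : ℝ) < bs K (m + j) := by exact_mod_cast bs_pos K (m + j)
    calc 1 / (bs K (m + (j + 1)) : ℝ) ≤ 1 / (2 * bs K (m + j)) := by
          rw [← add_assoc]
          gcongr
      _ = 1 / (bs K (m + j)) * (1 / 2) := by field_simp
      _ ≤ (1 / (bs K m : ℝ) * (1 / 2) ^ j) * (1 / 2) := by gcongr
      _ = _ := by rw [pow_succ]; ring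

theorem summable_bs (m : ℕ) : Summable fun j => 1 / (bs K (m + j) : ℝ) := by
  refine Summable.of_nonneg_of_le (fun j => by positivity) (fun j => inv_bs_le K m j) ?_
  exact (summable_geometric_of_lt_one (by norm_num) (by norm_num)).mul_left _

/-- the rotation number -/
noncomputable def bα : ℝ := ∑' k, 1 / (bs K (k + 1) : ℝ)

/-- tails -/
noncomputable def bT (m : ℕ) : ℝ := ∑' j, 1 / (bs K (m + 1 + j) : ℝ)

theorem bα_eq (m : ℕ) : bα K = bS K m + bT K m := by
  have h1 : Summable fun k => 1 / (bs K (k + 1) : ℝ) := by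
    have := summable_bs K 1
    simpa [add_comm] using this
  have := h1.sum_add_tsum_nat_add m
  rw [bα, ← this, bS, bT]
  congr 1
  refine tsum_congr fun j => ?_
  rw [show j + m + 1 = m + 1 + j by ring]

theorem bT_nonneg (m : ℕ) : 0 ≤ bT K m := tsum_nonneg fun j => by positivity

theorem bT_le (m : ℕ) : bT K m ≤ 2 / bs K (m + 1) := by
  have h1 : bT K m ≤ ∑' j : ℕ, 1 / (bs K (m + 1) : ℝ) * (1 / 2) ^ j :=
    (summable_bs K (m + 1)).tsum_le_tsum (fun j => inv_bs_le K (m + 1) j)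
      ((summable_geometric_of_lt_one (by norm_num) (by norm_num)).mul_left _)
  rw [tsum_mul_left, tsum_geometric_two] at h1
  refine h1.trans (le_of_eq ?_)
  ring

theorem bT_succ (m : ℕ) : bT K m = 1 / bs K (m + 1) + bT K (m + 1) := by
  have h1 := bα_eq K m
  have h2 := bα_eq K (m + 1)
  have h3 : bS K (m + 1) = bS K m + 1 / bs K (m + 1) := by
    rw [bS, Finset.sum_range_succ, ← bS]
  linarith

/-- `b_m S_m` is an integer -/
theorem bs_mul_bS (m : ℕ) : ∃ z : ℕ, (bs K m : ℝ) * bS K m = z := by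
  refine ⟨∑ k ∈ Finset.range m, bs K m / bs K (k + 1), ?_⟩
  rw [bS, Finset.mul_sum]
  push_cast
  refine Finset.sum_congr rfl fun k hk => ?_
  rw [Finset.mem_range] at hk
  rw [Nat.cast_div (bs_dvd K (by omega)) (by exact_mod_cast (bs_pos K _).ne')]
  ring

theorem ee_bs_mul (m N : ℕ) : ee (bs K m * N * bα K) = ee (N * (bs K m * bT K m)) := by
  obtain ⟨z, hz⟩ := bs_mul_bS K m
  have : (bs K m : ℝ) * N * bα K = ((N * z : ℕ) : ℝ) + N * (bs K m * bT K m) := by
    rw [bα_eq K m]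
    push_cast
    rw [← hz]
    ring
  rw [this, ee_nat_add]

theorem bs_mul_bT_le (m : ℕ) : bs K m * bT K m ≤ 1 / bN K m := by
  have h1 : (0 : ℝ) < bs K m := by exact_mod_cast bs_pos K m
  have h2 : (0 : ℝ) < bN K m := by exact_mod_cast bN_pos K m
  calc bs K m * bT K m ≤ bs K m * (2 / bs K (m + 1)) := by
        gcongr
        exact bT_le K m
    _ = 1 / bN K m := by
        rw [bs_succ]
        push_cast
        field_simp

theorem two_pow_le_bN (m : ℕ) : 16 * 2 ^ m * (K m (bs K m) + 1) * bs K m = bN K m := by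
  rw [bN, bK]; ring

theorem norm_small (m : ℕ) :
    ‖((ee (bs K m * bα K) : Circle) : ℂ) - 1‖ * (K m (bs K m) + 1) ≤ (1 / 2 : ℝ) ^ m := by
  have h0 : ee (bs K m * bα K) = ee (bs K m * bT K m) := by
    have := ee_bs_mul K m 1
    simpa using this
  have h1 : ‖((ee (bs K m * bα K) : Circle) : ℂ) - 1‖ ≤ 7 * (1 / bN K m) := by
    rw [h0]
    refine (norm_ee_sub_one_le _).trans ?_
    rw [abs_of_nonneg (mul_nonneg (Nat.cast_nonneg _) (bT_nonneg K m))]
    have := bs_mul_bT_le K m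
    gcongr
  have h2 : (0 : ℝ) < bN K m := by exact_mod_cast bN_pos K m
  have h3 : (16 * 2 ^ m * (K m (bs K m) + 1) * bs K m : ℝ) = bN K m := by
    exact_mod_cast two_pow_le_bN K m
  have h4 : (1 : ℝ) ≤ bs K m := by exact_mod_cast bs_pos K m
  have h5 : (0 : ℝ) < K m (bs K m) + 1 := by positivity
  calc ‖((ee (bs K m * bα K) : Circle) : ℂ) - 1‖ * (K m (bs K m) + 1)
      ≤ 7 * (1 / bN K m) * (K m (bs K m) + 1) := by gcongr
    _ = 7 / (16 * 2 ^ m * bs K m) := by
        rw [← h3]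
        field_simp
    _ ≤ 16 / (16 * 2 ^ m * 1) := by gcongr; norm_num
    _ = (1 / 2 : ℝ) ^ m := by
        rw [mul_one, div_pow, one_pow]
        field_simp

/-- the times are good for the other frequencies -/
theorem norm_off {m n : ℕ} (h : m ≠ n) :
    ‖((ee (bs K m * bN K n * bα K) : Circle) : ℂ) - 1‖ ≤ (1 / 2 : ℝ) ^ n * (1 / 2) ^ m := by
  rcases lt_or_gt_of_ne h with hmn | hmn
  · -- m < n
    obtain ⟨z, hz⟩ := bs_mul_bS K n
    have e1 : (bs K m : ℝ) * bN K n * bα K =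
        ((bs K m * bK K n (bs K n) * z : ℕ) : ℝ) + bs K m * bN K n * bT K n := by
      rw [bα_eq K n]
      push_cast
      rw [← hz, bN]
      push_cast
      ring
    rw [e1, ee_nat_add]
    refine (norm_ee_sub_one_le _).trans ?_
    have hT := bT_nonneg K n
    have hN : (0 : ℝ) < bN K n := by exact_mod_cast bN_pos K n
    have hbn : (0 : ℝ) < bs K n := by exact_mod_cast bs_pos K n
    rw [abs_of_nonneg (by positivity)]
    obtain ⟨k, rfl⟩ : ∃ k, n = k + 1 := ⟨n - 1, by omega⟩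
    have hbk : (0 : ℝ) < bs K k := by exact_mod_cast bs_pos K k
    have hNk : (0 : ℝ) < bN K k := by exact_mod_cast bN_pos K k
    have h1 : (bs K m : ℝ) * bN K (k + 1) * bT K (k + 1) ≤ bs K m / bs K (k + 1) := by
      calc (bs K m : ℝ) * bN K (k + 1) * bT K (k + 1)
          ≤ bs K m * bN K (k + 1) * (2 / bs K (k + 1 + 1)) := by
            gcongr
            exact bT_le K _
        _ = bs K m / bs K (k + 1) := by
            rw [bs_succ K (k + 1)]
            push_cast
            field_simp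
    have h2 : (bs K m : ℝ) ≤ bs K k := by
      exact_mod_cast (bs_strictMono K).monotone (by omega : m ≤ k)
    have h3 : (2 : ℝ) ^ m ≤ bs K k := by
      exact_mod_cast (bs_ge_two_pow K m).trans ((bs_strictMono K).monotone (by omega : m ≤ k))
    have h4 : (16 * 2 ^ k : ℝ) * bs K k ≤ bN K k := by
      have := Nat.mul_le_mul_left (bs K k) (bK_ge K k (bs K k))
      have h5 : bs K k * (16 * 2 ^ k) ≤ bN K k := this
      have h6 : (bs K k * (16 * 2 ^ k) : ℝ) ≤ bN K k := by exact_mod_cast h5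
      linarith
    have h7 : (bs K m : ℝ) / bs K (k + 1) ≤ 1 / (32 * 2 ^ k * 2 ^ m) := by
      rw [bs_succ K k]
      push_cast
      calc (bs K m : ℝ) / (2 * bs K k * bN K k)
          ≤ bs K k / (2 * bs K k * (16 * 2 ^ k * bs K k)) := by gcongr
        _ = 1 / (32 * 2 ^ k * bs K k) := by field_simp; norm_num
        _ ≤ 1 / (32 * 2 ^ k * 2 ^ m) := by gcongr
    calc 7 * ((bs K m : ℝ) * bN K (k + 1) * bT K (k + 1))
        ≤ 7 * (1 / (32 * 2 ^ k * 2 ^ m)) := by gcongr; exact h1.trans h7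
      _ ≤ 16 * (1 / (32 * 2 ^ k * 2 ^ m)) := by gcongr; norm_num
      _ = (1 / 2 : ℝ) ^ (k + 1) * (1 / 2) ^ m := by
          rw [div_pow, div_pow, one_pow, one_pow, pow_succ]
          field_simp
          norm_num
  · -- n < m
    rw [ee_bs_mul]
    refine (norm_ee_sub_one_le _).trans ?_
    have hT := bT_nonneg K m
    have hN : (0 : ℝ) < bN K n := by exact_mod_cast bN_pos K n
    have hNm : (0 : ℝ) < bN K m := by exact_mod_cast bN_pos K m
    have hbn : (0 : ℝ) < bs K n := by exact_mod_cast bs_pos K n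
    rw [abs_of_nonneg (by positivity)]
    have h1 : (bN K n : ℝ) * (bs K m * bT K m) ≤ bN K n * (1 / bN K m) := by
      gcongr
      exact bs_mul_bT_le K m
    have h2 : (bs K (n + 1) : ℝ) ≤ bs K m := by
      exact_mod_cast (bs_strictMono K).monotone (by omega : n + 1 ≤ m)
    have h3 : (2 : ℝ) ^ n ≤ bs K n := by exact_mod_cast bs_ge_two_pow K n
    have h4 : (16 * 2 ^ m : ℝ) * bs K m ≤ bN K m := by
      have := Nat.mul_le_mul_left (bs K m) (bK_ge K m (bs K m))
      have h5 : bs K m * (16 * 2 ^ m) ≤ bN K m := this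
      have h6 : (bs K m * (16 * 2 ^ m) : ℝ) ≤ bN K m := by exact_mod_cast h5
      linarith
    have h5 : (bs K (n + 1) : ℝ) = 2 * bs K n * bN K n := by exact_mod_cast bs_succ K n
    have hbm : (0 : ℝ) < bs K m := by exact_mod_cast bs_pos K m
    have hbn1 : (0 : ℝ) < bs K (n + 1) := by exact_mod_cast bs_pos K (n + 1)
    have h6 : (bN K n : ℝ) * (1 / bN K m) ≤ 1 / (32 * 2 ^ m * 2 ^ n) := by
      calc (bN K n : ℝ) * (1 / bN K m) ≤ bN K n * (1 / (16 * 2 ^ m * bs K m)) := by gcongr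
        _ ≤ bN K n * (1 / (16 * 2 ^ m * bs K (n + 1))) := by gcongr
        _ = 1 / (32 * 2 ^ m * bs K n) := by
            rw [h5]
            field_simp
            norm_num
        _ ≤ 1 / (32 * 2 ^ m * 2 ^ n) := by gcongr
    calc 7 * ((bN K n : ℝ) * (bs K m * bT K m))
        ≤ 7 * (1 / (32 * 2 ^ m * 2 ^ n)) := by gcongr; exact h1.trans h6
      _ ≤ 32 * (1 / (32 * 2 ^ m * 2 ^ n)) := by gcongr; norm_num
      _ = (1 / 2 : ℝ) ^ n * (1 / 2) ^ m := by
          rw [div_pow, div_pow, one_pow, one_pow]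
          field_simp

theorem norm_self (n : ℕ) :
    ‖((ee (bs K n * bN K n * bα K) : Circle) : ℂ) + 1‖ ≤ (1 / 2 : ℝ) ^ n := by
  have e0 : ee (bs K n * bN K n * bα K) = ee (bN K n * (bs K n * bT K n)) := ee_bs_mul K n (bN K n)
  have hbn : (0 : ℝ) < bs K n := by exact_mod_cast bs_pos K n
  have hN : (0 : ℝ) < bN K n := by exact_mod_cast bN_pos K n
  have e1 : (bN K n : ℝ) * (bs K n * bT K n) = 1 / 2 + bs K n * bN K n * bT K (n + 1) := by
    rw [bT_succ, bs_succ]
    push_cast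
    field_simp
  rw [e0, e1, ee_add, Circle.coe_mul, ee_half]
  have e2 : ∀ w : ℂ, ‖-1 * w + 1‖ = ‖w - 1‖ := fun w => by
    rw [← norm_neg]
    congr 1
    ring
  rw [e2]
  refine (norm_ee_sub_one_le _).trans ?_
  have hT := bT_nonneg K (n + 1)
  rw [abs_of_nonneg (by positivity)]
  have h2 : (bs K (n + 1) : ℝ) = 2 * bs K n * bN K n := by exact_mod_cast bs_succ K n
  have h3 := bs_mul_bT_le K (n + 1)
  have h4 : (16 * 2 ^ (n + 1) : ℝ) ≤ bN K (n + 1) := by
    have h5 := bK_ge K (n + 1) (bs K (n + 1))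
    have h6 : bK K (n + 1) (bs K (n + 1)) ≤ bN K (n + 1) :=
      Nat.le_mul_of_pos_left _ (bs_pos K _)
    exact_mod_cast h5.trans h6
  have h7 : (bs K n : ℝ) * bN K n * bT K (n + 1) = (bs K (n + 1) * bT K (n + 1)) / 2 := by
    rw [h2]; ring
  rw [h7]
  have h8 : (0 : ℝ) < bN K (n + 1) := by exact_mod_cast bN_pos K (n + 1)
  calc 7 * ((bs K (n + 1) * bT K (n + 1)) / 2) ≤ 7 * ((1 / bN K (n + 1)) / 2) := by gcongr
    _ ≤ 7 * ((1 / (16 * 2 ^ (n + 1))) / 2) := by gcongr
    _ ≤ 64 * ((1 / (16 * 2 ^ (n + 1))) / 2) := by gcongr; norm_num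
    _ = (1 / 2 : ℝ) ^ n := by
        rw [div_pow, one_pow, pow_succ]
        field_simp
        norm_num

end Seq

/-- **Existence of the rates.** -/
theorem exists_rates (K : ℕ → ℕ → ℕ) : ∃ R : Rates, ∀ n,
    ‖((ee (R.q n * R.α) : Circle) : ℂ) - 1‖ * (K n (R.q n) + 1) ≤ (1 / 2 : ℝ) ^ n := by
  have hoff : ∀ n, ∑' m, (if m = n then 0 else
      ‖((ee (bs K m * bN K n * bα K) : Circle) : ℂ) - 1‖) ≤ 2 * (1 / 2 : ℝ) ^ n := by
    intro n
    have hg : Summable fun m : ℕ => (1 / 2 : ℝ) ^ n * (1 / 2) ^ m :=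
      (summable_geometric_of_lt_one (by norm_num) (by norm_num)).mul_left _
    have hle : ∀ m, (if m = n then 0 else
      ‖((ee (bs K m * bN K n * bα K) : Circle) : ℂ) - 1‖) ≤ (1 / 2 : ℝ) ^ n * (1 / 2) ^ m := by
      intro m
      split_ifs with h
      · positivity
      · exact norm_off K h
    have hs : Summable fun m => (if m = n then 0 else
      ‖((ee (bs K m * bN K n * bα K) : Circle) : ℂ) - 1‖) := by
      refine Summable.of_nonneg_of_le (fun m => ?_) hle hg
      split_ifs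
      · exact le_rfl
      · exact norm_nonneg _
    refine (hs.tsum_le_tsum hle hg).trans (le_of_eq ?_)
    rw [tsum_mul_left, tsum_geometric_two]
    ring
  have hlim : Tendsto (fun n : ℕ => (1 / 2 : ℝ) ^ n) atTop (𝓝 0) :=
    tendsto_pow_atTop_nhds_zero_of_lt_one (by norm_num) (by norm_num)
  refine ⟨{ α := bα K, q := bs K, N := bN K, q_mono := bs_strictMono K, small := ?_, self := ?_,
            off := ?_ }, fun n => norm_small K n⟩
  · intro n
    refine le_trans ?_ (norm_small K n)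
    refine le_mul_of_one_le_right (norm_nonneg _) ?_
    have : (0 : ℝ) ≤ K n (bs K n) := Nat.cast_nonneg _
    linarith
  · exact squeeze_zero (fun n => norm_nonneg _) (fun n => norm_self K n) hlim
  · refine squeeze_zero (fun n => tsum_nonneg fun m => ?_) hoff ?_
    · split_ifs
      · exact le_rfl
      · exact norm_nonneg _
    · simpa using hlim.const_mul 2

end ANB
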