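import Pool.Agent.helper4.AN.Plane
import Pool.Agent.helper4.AN.Rate

/-!
# The points of non-equicontinuity of the twist maps
-/

namespace ANB

open Set Topology Filter

open H31 (near bump_far bump_high bump_nonneg bump_le near_cc cc_cons plane_mem plane_cont S2_sq
  re_pow_le)

theorem near_unique {r : ℕ → ℕ → Bool} (h : IsLin r) {i j : ℕ} {x : ℝ × ℝ} (hi : near r i x)
    (hj : near r j x) : i = j := by
  by_contra hne
  obtain ⟨i0, i1, -⟩ := near_cc hi
  obtain ⟨j0, j1, -⟩ := near_cc hj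
  rcases h.total i j hne with hr | hr
  · have := cc_cons h x.1 i j hr j0
    linarith
  · have := cc_cons h x.1 j i hr i0
    linarith

/-- at most one bump is nonzero -/
theorem astar_mem {κ : (ℕ → ℕ → Bool) × (ℕ → ℕ)} (h : IsLin κ.1) (n : ℕ) (x : ℝ × ℝ) :
    0 ≤ astar κ n x ∧ astar κ n x ≤ 1 / 8 := by
  constructor
  · refine Finset.sum_nonneg fun i _ => ?_
    split_ifs
    · exact bump_nonneg _ _ _
    · exact le_rfl
  · by_cases hx : ∃ i, near κ.1 i x
    · obtain ⟨i, hi⟩ := hx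
      have h1 : ∀ j ∈ Finset.range (n + 1), (if κ.2 j = lam n then bump κ.1 n j x else 0) ≤
          if j = i then 1 / 8 else 0 := by
        intro j _
        by_cases hji : j = i
        · rw [if_pos hji]
          split_ifs
          · exact bump_le _ _ _
          · norm_num
        · rw [if_neg hji, bump_far (fun hj => hji (near_unique h hj hi))]
          simp
      refine (Finset.sum_le_sum h1).trans ?_
      rw [Finset.sum_ite_eq']
      split_ifs
      · exact le_rfl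
      · norm_num
    · push Not at hx
      have : astar κ n x = 0 := by
        refine Finset.sum_eq_zero fun i _ => ?_
        rw [bump_far (hx i)]
        simp
      rw [this]
      norm_num

theorem abs_P_le {κ : (ℕ → ℕ → Bool) × (ℕ → ℕ)} {P : ℕ → ℝ × ℝ → ℝ} (hP : Amp κ P)
    (h : IsLin κ.1) (n : ℕ) {x : ℝ × ℝ} (hx : x ∈ Rect) : |P n x| ≤ 2 := by
  have h1 := abs_le.1 (hP.approx n x hx)
  have h2 := astar_mem h n x
  have h3 : (1 / 2 : ℝ) ^ n ≤ 1 := pow_le_one₀ (by norm_num) (by norm_num)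
  rw [abs_le]
  constructor <;> linarith [h1.1, h1.2, h2.1, h2.2]

/-- amplitude at a marker -/
theorem astar_mk {κ : (ℕ → ℕ → Bool) × (ℕ → ℕ)} (h : IsLin κ.1) {i n : ℕ} (hin : i ≤ n)
    (hl : κ.2 i = lam n) : astar κ n (mk κ.1 i) = 1 / 8 := by
  have hw := H31.wt_pos i
  have hnear : near κ.1 i (mk κ.1 i) := by
    constructor <;> simp only [mk, sub_self, abs_zero] <;> positivity
  rw [astar, Finset.sum_eq_single i]
  · rw [if_pos hl, bump, mk]
    simp
  · intro j _ hji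
    rw [bump_far (fun hj => hji (near_unique h hj hnear))]
    simp
  · intro hi
    exact absurd (Finset.mem_range.2 (by omega)) hi

/-! ### Iterates -/

/-- terms of the Birkhoff sums -/
noncomputable def tm (R : Rates) (P : ℕ → ℝ × ℝ → ℝ) (n : ℕ) (z : ℂ) (x : ℝ × ℝ) (m : ℕ) : ℝ :=
  2 * P m x * (((ee (R.q m * n * R.α) : ℂ) * z ^ (R.q m)).re - (z ^ (R.q m)).re)

/-- Birkhoff sums -/
noncomputable def BS (R : Rates) (P : ℕ → ℝ × ℝ → ℝ) (n : ℕ) (z : ℂ) (x : ℝ × ℝ) : ℝ :=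
  ∑' m, tm R P n z x m

theorem norm_pow_sub_one_le (c : Circle) (n : ℕ) : ‖(c : ℂ) ^ n - 1‖ ≤ n * ‖(c : ℂ) - 1‖ := by
  induction n with
  | zero => simp
  | succ n ih =>
    have e : (c : ℂ) ^ (n + 1) - 1 = (c : ℂ) ^ n * ((c : ℂ) - 1) + ((c : ℂ) ^ n - 1) := by ring
    rw [e]
    refine (norm_add_le _ _).trans ?_
    rw [norm_mul, norm_pow, Circle.norm_coe, one_pow, one_mul]
    push_cast
    linarith

theorem norm_ee_mul_le (R : Rates) (n m : ℕ) :
    ‖((ee (R.q m * n * R.α) : Circle) : ℂ) - 1‖ ≤ n * (1 / 2 : ℝ) ^ m := by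
  have e : (R.q m * n * R.α : ℝ) = n * (R.q m * R.α) := by ring
  rw [e, ee_mul_nat, Circle.coe_pow]
  refine (norm_pow_sub_one_le _ n).trans ?_
  gcongr
  exact R.small m

theorem re_sub_le (c : Circle) (z : Circle) (q : ℕ) :
    |((c : ℂ) * (z : ℂ) ^ q).re - ((z : ℂ) ^ q).re| ≤ ‖(c : ℂ) - 1‖ := by
  rw [← Complex.sub_re]
  refine (Complex.abs_re_le_norm _).trans ?_
  have : (c : ℂ) * (z : ℂ) ^ q - (z : ℂ) ^ q = ((c : ℂ) - 1) * (z : ℂ) ^ q := by ring
  rw [this, norm_mul, norm_pow, Circle.norm_coe, one_pow, mul_one]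

variable {κ : (ℕ → ℕ → Bool) × (ℕ → ℕ)} {P : ℕ → ℝ × ℝ → ℝ}

theorem abs_tm_le (R : Rates) (hP : Amp κ P) (h : IsLin κ.1) (n : ℕ) (z : Circle) {x : ℝ × ℝ}
    (hx : x ∈ Rect) (m : ℕ) :
    |tm R P n z x m| ≤ 4 * ‖((ee (R.q m * n * R.α) : Circle) : ℂ) - 1‖ := by
  rw [tm, abs_mul, abs_mul, abs_two]
  have h1 := abs_P_le hP h m hx
  have h2 := re_sub_le (ee (R.q m * n * R.α)) z (R.q m)
  calc 2 * |P m x| * _ ≤ 2 * 2 * ‖((ee (R.q m * n * R.α) : Circle) : ℂ) - 1‖ := by gcongr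
    _ = _ := by ring

theorem abs_tm_le' (R : Rates) (hP : Amp κ P) (h : IsLin κ.1) (n : ℕ) (z : Circle) {x : ℝ × ℝ}
    (hx : x ∈ Rect) (m : ℕ) : |tm R P n z x m| ≤ 4 * (n * (1 / 2 : ℝ) ^ m) :=
  (abs_tm_le R hP h n z hx m).trans (by gcongr; exact norm_ee_mul_le R n m)

theorem summable_geo (a : ℝ) : Summable fun m : ℕ => a * (1 / 2 : ℝ) ^ m :=
  (summable_geometric_of_lt_one (by norm_num) (by norm_num)).mul_left _

theorem summable_tm (R : Rates) (hP : Amp κ P) (h : IsLin κ.1) (n : ℕ) (z : Circle) {x : ℝ × ℝ}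
    (hx : x ∈ Rect) : Summable (tm R P n z x) := by
  refine Summable.of_norm_bounded (summable_geo (4 * n)) fun m => ?_
  refine (abs_tm_le' R hP h n z hx m).trans (le_of_eq ?_)
  ring

theorem Phi_eq_BS (R : Rates) (z : ℂ) (x : ℝ × ℝ) : Phi R P z x = BS R P 1 z x := by
  rw [Phi, BS]
  refine tsum_congr fun m => ?_
  rw [tm]
  simp

theorem BS_succ (R : Rates) (hP : Amp κ P) (h : IsLin κ.1) (n : ℕ) (z : Circle) {x : ℝ × ℝ}
    (hx : x ∈ Rect) :
    BS R P (n + 1) z x = Phi R P ((ee (n * R.α) * z : Circle) : ℂ) x + BS R P n z x := by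
  rw [Phi_eq_BS, BS, BS, BS, ← (summable_tm R hP h 1 (ee (n * R.α) * z) hx).tsum_add
    (summable_tm R hP h n z hx)]
  refine tsum_congr fun m => ?_
  have e1 : (((ee (n * R.α) * z : Circle) : ℂ)) ^ (R.q m) =
      (ee (R.q m * n * R.α) : ℂ) * (z : ℂ) ^ (R.q m) := by
    rw [Circle.coe_mul, mul_pow, ← Circle.coe_pow, ← ee_mul_nat]
    congr 3
    ring
  have e2 : (ee (R.q m * (1 : ℕ) * R.α) : ℂ) * ((ee (R.q m * n * R.α) : ℂ) * (z : ℂ) ^ (R.q m)) =
      (ee (R.q m * (n + 1 : ℕ) * R.α) : ℂ) * (z : ℂ) ^ (R.q m) := by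
    rw [← mul_assoc, ← Circle.coe_mul, ← ee_add]
    congr 3
    push_cast
    ring
  rw [tm, tm, tm, e1, e2]
  ring

theorem rotS_rotS (a b : Circle) (v : S2) : rotS a (rotS b v) = rotS (a * b) v := by
  refine Subtype.ext (Prod.ext ?_ rfl)
  simp only [rotS, Circle.coe_mul]
  ring

theorem iterate_tw (R : Rates) (hP : Amp κ P) (h : IsLin κ.1) (n : ℕ) (p : MM) :
    (tw R P)^[n] p = (ee (n * R.α) * p.1, p.2.1, rotS (ee (BS R P n p.1 (plane p))) p.2.2) := by
  induction n with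
  | zero =>
    have h0 : BS R P 0 p.1 (plane p) = 0 := by
      rw [BS]
      have : tm R P 0 (p.1 : ℂ) (plane p) = fun _ => 0 := by
        funext m
        simp [tm, ee_zero]
      rw [this, tsum_zero]
    rw [h0, ee_zero]
    simp only [Function.iterate_zero, id, Nat.cast_zero, zero_mul, ee_zero, one_mul]
    refine Prod.ext rfl (Prod.ext rfl (Subtype.ext (Prod.ext ?_ rfl)))
    simp [rotS]
  | succ n ih =>
    rw [Function.iterate_succ_apply', ih]
    have hpl : plane (ee (n * R.α) * p.1, p.2.1, rotS (ee (BS R P n p.1 (plane p))) p.2.2) =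
        plane p := rfl
    rw [BS_succ R hP h n p.1 (plane_mem p)]
    rw [tw, hpl]
    simp only [rotS_rotS, ← ee_add]
    rw [← mul_assoc, ← ee_add]
    congr 3
    push_cast
    ring

/-! ### The good times -/

/-- error at the good time -/
noncomputable def eps (R : Rates) (k : ℕ) : ℝ :=
  ‖((ee (R.q k * R.N k * R.α) : Circle) : ℂ) + 1‖ +
    ∑' m, if m = k then 0 else ‖((ee (R.q m * R.N k * R.α) : Circle) : ℂ) - 1‖

theorem tendsto_eps (R : Rates) : Tendsto (eps R) atTop (𝓝 0) := by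
  have := R.self.add R.off
  rw [add_zero] at this
  exact this

theorem BS_est (R : Rates) (hP : Amp κ P) (h : IsLin κ.1) (k : ℕ) (z : Circle) {x : ℝ × ℝ}
    (hx : x ∈ Rect) :
    |BS R P (R.N k) z x + 4 * P k x * ((z : ℂ) ^ (R.q k)).re| ≤ 4 * eps R k := by
  have hs := summable_tm R hP h (R.N k) z hx
  have hsum : Summable fun m => if m = k then 0 else
      ‖((ee (R.q m * R.N k * R.α) : Circle) : ℂ) - 1‖ := by
    refine Summable.of_nonneg_of_le (fun m => ?_) (fun m => ?_) (summable_geo (R.N k))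
    · split_ifs
      · exact le_rfl
      · exact norm_nonneg _
    · split_ifs
      · positivity
      · exact norm_ee_mul_le R (R.N k) m
  have hsplit : BS R P (R.N k) z x = tm R P (R.N k) z x k +
      ∑' m, if m = k then 0 else tm R P (R.N k) z x m := by
    rw [BS]
    exact hs.tsum_eq_add_tsum_ite k
  have h1 : |∑' m, (if m = k then 0 else tm R P (R.N k) z x m)| ≤
      4 * ∑' m, if m = k then 0 else ‖((ee (R.q m * R.N k * R.α) : Circle) : ℂ) - 1‖ := by
    rw [← tsum_mul_left, ← Real.norm_eq_abs]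
    refine tsum_of_norm_bounded (hsum.mul_left 4).hasSum fun m => ?_
    split_ifs
    · simp
    · exact abs_tm_le R hP h (R.N k) z hx m
  have h2 : |tm R P (R.N k) z x k + 4 * P k x * ((z : ℂ) ^ (R.q k)).re| ≤
      4 * ‖((ee (R.q k * R.N k * R.α) : Circle) : ℂ) + 1‖ := by
    have e : tm R P (R.N k) z x k + 4 * P k x * ((z : ℂ) ^ (R.q k)).re =
        2 * P k x * ((((ee (R.q k * R.N k * R.α) : Circle) : ℂ) + 1) * (z : ℂ) ^ (R.q k)).re := by
      rw [tm, add_mul, one_mul, Complex.add_re]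
      ring
    rw [e, abs_mul, abs_mul, abs_two]
    have h3 : |((((ee (R.q k * R.N k * R.α) : Circle) : ℂ) + 1) * (z : ℂ) ^ (R.q k)).re| ≤
        ‖((ee (R.q k * R.N k * R.α) : Circle) : ℂ) + 1‖ := by
      refine (Complex.abs_re_le_norm _).trans ?_
      rw [norm_mul, norm_pow, Circle.norm_coe, one_pow, mul_one]
    have h4 := abs_P_le hP h k hx
    calc 2 * |P k x| * _ ≤ 2 * 2 * ‖((ee (R.q k * R.N k * R.α) : Circle) : ℂ) + 1‖ := by gcongr
      _ = _ := by ring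
  rw [hsplit, eps, mul_add]
  have e2 : tm R P (R.N k) z x k + (∑' m, if m = k then 0 else tm R P (R.N k) z x m) +
      4 * P k x * ((z : ℂ) ^ (R.q k)).re =
      (tm R P (R.N k) z x k + 4 * P k x * ((z : ℂ) ^ (R.q k)).re) +
      ∑' m, if m = k then 0 else tm R P (R.N k) z x m := by ring
  rw [e2]
  exact (abs_add_le _ _).trans (add_le_add h2 h1)

/-! ### Continuity -/

theorem continuous_Phi (R : Rates) (hP : Amp κ P) (h : IsLin κ.1) :
    Continuous fun p : MM => Phi R P p.1 (plane p) := by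
  unfold Phi
  refine continuous_tsum (u := fun m => 4 * ((1 : ℕ) * (1 / 2 : ℝ) ^ m)) (fun m => ?_) ?_ ?_
  · have hc : Continuous fun p : MM => (p.1 : ℂ) := continuous_subtype_val.comp continuous_fst
    have h1 := (hP.cont m).comp plane_cont
    exact (continuous_const.mul h1).mul (((Complex.continuous_re.comp
      (continuous_const.mul (hc.pow _)))).sub (Complex.continuous_re.comp (hc.pow _)))
  · refine (summable_geo 4).congr fun m => ?_
    simp
  · intro m p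
    have := abs_tm_le' R hP h 1 p.1 (plane_mem p) m
    rw [tm] at this
    simpa using this

theorem continuous_rot : Continuous fun q : Circle × S2 => rotS q.1 q.2 := by
  refine Continuous.subtype_mk ?_ _
  have h1 : Continuous fun q : Circle × S2 => (q.1 : ℂ) := continuous_subtype_val.comp continuous_fst
  have h2 : Continuous fun q : Circle × S2 => (q.2.1 : ℂ × ℝ) :=
    continuous_subtype_val.comp continuous_snd
  exact (h1.mul (continuous_fst.comp h2)).prodMk (continuous_snd.comp h2)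

theorem continuous_tw (R : Rates) (hP : Amp κ P) (h : IsLin κ.1) : Continuous (tw R P) := by
  refine (continuous_const.mul continuous_fst).prodMk ((continuous_fst.comp continuous_snd).prodMk ?_)
  exact continuous_rot.comp ((continuous_ee.comp (continuous_Phi R hP h)).prodMk
    (continuous_snd.comp continuous_snd))

/-! ### Points near a given point of the circle with prescribed power -/

theorem exists_ee (z : Circle) : ∃ t : ℝ, ee t = z := by
  refine ⟨Complex.arg z / (2 * Real.pi), ?_⟩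
  rw [ee]
  have h : 2 * Real.pi * (Complex.arg z / (2 * Real.pi)) = Complex.arg z := by
    field_simp
  rw [h, Circle.exp_arg]

theorem exists_pow_eq (z : Circle) (q : ℕ) (hq : 0 < q) {τ : ℝ} (hτ0 : 0 ≤ τ) (hτ1 : τ ≤ 1) :
    ∃ z' : Circle, z' ^ q = ee τ ∧ ‖(z' : ℂ) - z‖ ≤ 7 / q := by
  obtain ⟨t, rfl⟩ := exists_ee z
  have hq' : (0 : ℝ) < q := by exact_mod_cast hq
  refine ⟨ee ((⌊q * t⌋ + τ) / q), ?_, ?_⟩
  · rw [← ee_mul_nat]
    have h : (q : ℝ) * ((⌊q * t⌋ + τ) / q) = ⌊q * t⌋ + τ := by field_simp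
    rw [h, ee_add, ee_int, one_mul]
  · refine (norm_ee_sub_le _ _).trans ?_
    have h1 : (⌊(q : ℝ) * t⌋ + τ) / q - t = (⌊(q : ℝ) * t⌋ + τ - q * t) / q := by field_simp
    rw [h1, abs_div, abs_of_pos hq']
    have h2 := Int.floor_le ((q : ℝ) * t)
    have h3 := Int.lt_floor_add_one ((q : ℝ) * t)
    have h4 : |(⌊(q : ℝ) * t⌋ + τ - q * t)| ≤ 1 := by
      rw [abs_le]
      constructor <;> linarith
    calc 7 * (|(⌊(q : ℝ) * t⌋ + τ - q * t)| / q) ≤ 7 * (1 / q) := by gcongr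
      _ = 7 / q := by ring

theorem ee_quarter_re : ((ee (1 / 4) : Circle) : ℂ).re = 0 := by
  rw [ee, Circle.coe_exp, show (2 * Real.pi * (1 / 4) : ℝ) = Real.pi / 2 by ring,
    Complex.exp_ofReal_mul_I_re, Real.cos_pi_div_two]

theorem exists_large (l n : ℕ) : ∃ k, n ≤ k ∧ lam k = l := by
  refine ⟨Nat.pair l n, Nat.right_le_pair l n, ?_⟩
  rw [lam, Nat.unpair_pair]

theorem le_q (R : Rates) (n : ℕ) : n ≤ R.q n := R.q_mono.id_le n

theorem equi_iff_MM {ι : Type*} (F : ι → MM → MM) (p : MM) : EquicontinuousAt F p ↔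
    ∀ ε > 0, ∃ δ > 0, ∀ x, dist x p < δ → ∀ i, dist (F i p) (F i x) < ε :=
  Metric.equicontinuousAt_iff

/-! ### Marker points are points of non-equicontinuity -/

theorem dist_S2_ge (u v : S2) : ‖u.1.1 - v.1.1‖ ≤ dist u v := by
  have h1 : dist u v = dist u.1 v.1 := rfl
  rw [h1, Prod.dist_eq, ← dist_eq_norm]
  exact le_max_left _ _

theorem not_equi (R : Rates) (hP : Amp κ P) (h : IsLin κ.1) {p : MM} {i : ℕ}
    (hp : plane p = mk κ.1 i) :
    ¬ EquicontinuousAt (fun (n : {n : ℕ // lam n = κ.2 i}) => (tw R P)^[R.N n]) p := by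
  intro H
  obtain ⟨z, σ, v⟩ := p
  -- the circle fibre is not collapsed
  have hw : 0 < ‖v.1.1‖ := by
    have h1 := S2_sq v
    have h2 : (1 + v.1.2) / 2 = wt i / 4 := congrArg Prod.snd hp
    have h3 := H31.wt_pos i
    have h4 := H31.wt_le i
    by_contra hc
    have h5 : ‖v.1.1‖ = 0 := le_antisymm (not_lt.1 hc) (norm_nonneg _)
    rw [h5] at h1
    nlinarith
  rw [equi_iff_MM] at H
  obtain ⟨δ, hδ, H⟩ := H (‖v.1.1‖ / 2) (by positivity)
  -- choose a large good time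
  have hlim : Tendsto (fun k : ℕ => 4 * (1 / 2 : ℝ) ^ k + 8 * eps R k) atTop (𝓝 0) := by
    have h1 : Tendsto (fun k : ℕ => (1 / 2 : ℝ) ^ k) atTop (𝓝 0) :=
      tendsto_pow_atTop_nhds_zero_of_lt_one (by norm_num) (by norm_num)
    simpa using (h1.const_mul 4).add ((tendsto_eps R).const_mul 8)
  have hev : ∀ᶠ k : ℕ in atTop, 4 * (1 / 2 : ℝ) ^ k + 8 * eps R k < 1 / 7 :=
    hlim.eventually (gt_mem_nhds (by norm_num))
  have hev2 : ∀ᶠ k : ℕ in atTop, (7 : ℝ) / k < δ := by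
    have : Tendsto (fun k : ℕ => (7 : ℝ) / k) atTop (𝓝 0) := tendsto_const_div_atTop_nhds_zero_nat 7
    exact this.eventually (gt_mem_nhds hδ)
  obtain ⟨n₀, hn₀⟩ := eventually_atTop.1 (hev.and hev2)
  obtain ⟨k, hk, hkl⟩ := exists_large (κ.2 i) (max (max n₀ i) 1)
  have hk1 : n₀ ≤ k := (le_max_left _ _).trans ((le_max_left _ _).trans hk)
  have hk2 : i ≤ k := (le_max_right _ _).trans ((le_max_left _ _).trans hk)
  have hk3 : 1 ≤ k := (le_max_right _ _).trans hk
  obtain ⟨he1, he2⟩ := hn₀ k hk1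
  have hq0 : 0 < R.q k := lt_of_lt_of_le hk3 (le_q R k)
  have hqd : (7 : ℝ) / R.q k < δ := by
    refine lt_of_le_of_lt ?_ he2
    have h1 : (0 : ℝ) < k := by exact_mod_cast hk3
    have h2 : (k : ℝ) ≤ R.q k := by exact_mod_cast le_q R k
    gcongr
  obtain ⟨z₁, hz₁, hz₁'⟩ := exists_pow_eq z (R.q k) hq0 (le_refl (0 : ℝ)) zero_le_one
  obtain ⟨z₂, hz₂, hz₂'⟩ := exists_pow_eq z (R.q k) hq0 (by norm_num : (0 : ℝ) ≤ 1 / 4) (by norm_num)
  have hre1 : ((z₁ : ℂ) ^ (R.q k)).re = 1 := by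
    rw [← Circle.coe_pow, hz₁, ee_zero]
    simp
  have hre2 : ((z₂ : ℂ) ^ (R.q k)).re = 0 := by
    rw [← Circle.coe_pow, hz₂, ee_quarter_re]
  have hd : ∀ z' : Circle, ‖(z' : ℂ) - z‖ ≤ 7 / R.q k → dist ((z', σ, v) : MM) (z, σ, v) < δ := by
    intro z' hz'
    rw [Prod.dist_eq, dist_self, max_eq_left dist_nonneg]
    refine lt_of_le_of_lt ?_ hqd
    refine le_trans (le_of_eq ?_) hz'
    rw [← dist_eq_norm]
    rfl
  have H1 := H (z₁, σ, v) (by rw [dist_comm] ; exact (by rw [dist_comm]; exact hd z₁ hz₁')) ⟨k, hkl⟩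
  have H2 := H (z₂, σ, v) (by rw [dist_comm] ; exact (by rw [dist_comm]; exact hd z₂ hz₂')) ⟨k, hkl⟩
  have H3 : dist ((tw R P)^[R.N k] (z₁, σ, v)) ((tw R P)^[R.N k] (z₂, σ, v)) < ‖v.1.1‖ := by
    have := dist_triangle_left ((tw R P)^[R.N k] (z₁, σ, v)) ((tw R P)^[R.N k] (z₂, σ, v))
      ((tw R P)^[R.N k] (z, σ, v))
    simp only at H1 H2
    linarith
  have hpl1 : plane ((z₁, σ, v) : MM) = mk κ.1 i := hp
  have hpl2 : plane ((z₂, σ, v) : MM) = mk κ.1 i := hp
  rw [iterate_tw R hP h, iterate_tw R hP h, hpl1, hpl2] at H3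
  set S₁ := BS R P (R.N k) z₁ (mk κ.1 i) with hS₁
  set S₂ := BS R P (R.N k) z₂ (mk κ.1 i) with hS₂
  have hmem : mk κ.1 i ∈ Rect := mk_mem_Rect h i
  have hPk : |P k (mk κ.1 i) - 1 / 8| ≤ (1 / 2 : ℝ) ^ k := by
    have := hP.approx k _ hmem
    rwa [astar_mk h hk2 hkl.symm] at this
  have hB1 := BS_est R hP h k z₁ hmem
  have hB2 := BS_est R hP h k z₂ hmem
  rw [hre1, mul_one, ← hS₁] at hB1
  rw [hre2, mul_zero, add_zero, ← hS₂] at hB2
  have hS1 : |S₁ + 1 / 2| ≤ 4 * (1 / 2 : ℝ) ^ k + 4 * eps R k := by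
    have h1 := abs_le.1 hB1
    have h2 := abs_le.1 hPk
    rw [abs_le]
    constructor <;> linarith [h1.1, h1.2, h2.1, h2.2]
  -- distance of the images
  have H4 : ‖(ee S₁ : ℂ) * v.1.1 - (ee S₂ : ℂ) * v.1.1‖ < ‖v.1.1‖ := by
    refine lt_of_le_of_lt ?_ H3
    refine le_trans (dist_S2_ge (rotS (ee S₁) v) (rotS (ee S₂) v)) ?_
    rw [Prod.dist_eq, Prod.dist_eq]
    exact (le_max_right _ _).trans (le_max_right _ _)
  rw [← sub_mul, norm_mul] at H4
  have H5 : ‖(ee S₁ : ℂ) - ee S₂‖ < 1 := by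
    by_contra hc
    push Not at hc
    nlinarith
  have H6 : ‖((ee (-(1 / 2)) : Circle) : ℂ) - ee 0‖ = 2 := by
    rw [ee_neg, ee_zero]
    have : (((ee (1 / 2))⁻¹ : Circle) : ℂ) = -1 := by
      rw [Circle.coe_inv, ee_half]
      norm_num
    rw [this]
    norm_num
  have H7 : ‖((ee (-(1 / 2)) : Circle) : ℂ) - ee S₁‖ ≤ 7 * |S₁ + 1 / 2| := by
    refine (norm_ee_sub_le _ _).trans (le_of_eq ?_)
    rw [← abs_neg]
    congr 2
    ring
  have H8 : ‖((ee S₂ : Circle) : ℂ) - ee 0‖ ≤ 7 * |S₂| := by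
    refine (norm_ee_sub_le _ _).trans (le_of_eq ?_)
    rw [sub_zero]
  have H9 : ‖((ee (-(1 / 2)) : Circle) : ℂ) - ee 0‖ ≤ ‖((ee (-(1 / 2)) : Circle) : ℂ) - ee S₁‖ +
      ‖(ee S₁ : ℂ) - ee S₂‖ + ‖((ee S₂ : Circle) : ℂ) - ee 0‖ := by
    have e : ((ee (-(1 / 2)) : Circle) : ℂ) - ee 0 = (((ee (-(1 / 2)) : Circle) : ℂ) - ee S₁) +
      ((ee S₁ : ℂ) - ee S₂) + (((ee S₂ : Circle) : ℂ) - ee 0) := by ring
    rw [e]
    exact norm_add₃_le
  linarith

/-! ### The other points are points of equicontinuity -/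

theorem dist_rotS_le (a b : Circle) (u v : S2) :
    dist (rotS a u) (rotS b v) ≤ ‖(a : ℂ) - b‖ * ‖u.1.1‖ + dist u v := by
  have h1 : dist (rotS a u) (rotS b v) = dist ((a : ℂ) * u.1.1, u.1.2) ((b : ℂ) * v.1.1, v.1.2) := rfl
  have h2 : dist u v = dist u.1 v.1 := rfl
  rw [h1, h2, Prod.dist_eq, Prod.dist_eq]
  refine max_le ?_ ?_
  · simp only
    rw [dist_eq_norm]
    have e : (a : ℂ) * u.1.1 - (b : ℂ) * v.1.1 = ((a : ℂ) - b) * u.1.1 + (b : ℂ) * (u.1.1 - v.1.1) := by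
      ring
    rw [e]
    refine (norm_add_le _ _).trans ?_
    rw [norm_mul, norm_mul, Circle.norm_coe, one_mul]
    gcongr
    rw [← dist_eq_norm]
    exact le_max_left _ _
  · exact (le_max_right (dist u.1.1 v.1.1) (dist u.1.2 v.1.2)).trans
      (le_add_of_nonneg_left (by positivity))

/-- distance after `n` steps -/
theorem dist_iterate_le (R : Rates) (hP : Amp κ P) (h : IsLin κ.1) (n : ℕ) (p p' : MM) :
    dist ((tw R P)^[n] p) ((tw R P)^[n] p') ≤
      ‖(ee (BS R P n p.1 (plane p)) : ℂ) - ee (BS R P n p'.1 (plane p'))‖ * ‖p.2.2.1.1‖ +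
        dist p p' := by
  rw [iterate_tw R hP h, iterate_tw R hP h]
  have hX : 0 ≤ ‖(ee (BS R P n p.1 (plane p)) : ℂ) - ee (BS R P n p'.1 (plane p'))‖ *
      ‖p.2.2.1.1‖ := by positivity
  have hd1 : dist p.1 p'.1 ≤ dist p p' := le_max_left _ _
  have hd2 : dist p.2.1 p'.2.1 ≤ dist p p' := (le_max_left _ _).trans (le_max_right _ _)
  have hd3 : dist p.2.2 p'.2.2 ≤ dist p p' := (le_max_right _ _).trans (le_max_right _ _)
  refine max_le ?_ (max_le ?_ ?_)
  · simp only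
    have : dist (ee (n * R.α) * p.1) (ee (n * R.α) * p'.1) = dist p.1 p'.1 := by
      show dist ((ee (n * R.α) * p.1 : Circle) : ℂ) ((ee (n * R.α) * p'.1 : Circle) : ℂ) =
        dist (p.1 : ℂ) (p'.1 : ℂ)
      rw [dist_eq_norm, dist_eq_norm, Circle.coe_mul, Circle.coe_mul, ← mul_sub, norm_mul,
        Circle.norm_coe, one_mul]
    rw [this]
    linarith
  · simp only
    linarith
  · simp only
    refine (dist_rotS_le _ _ _ _).trans ?_
    linarith

theorem equi_collapsed (R : Rates) (hP : Amp κ P) (h : IsLin κ.1) {p : MM}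
    (hp : p.2.2.1.1 = 0) (l : ℕ) :
    EquicontinuousAt (fun (n : {n : ℕ // lam n = l}) => (tw R P)^[R.N n]) p := by
  rw [equi_iff_MM]
  intro ε hε
  refine ⟨ε, hε, fun x hx n => ?_⟩
  refine lt_of_le_of_lt (dist_iterate_le R hP h (R.N n) p x) ?_
  rw [hp, norm_zero, mul_zero, zero_add, dist_comm]
  exact hx

/-- near a point which is not a marker of label `l`, the amplitudes of label `l` vanish -/
theorem exists_nhd {x : ℝ × ℝ} (hx0 : 0 < x.2) {l : ℕ} (hx : x ∉ marks κ.1 κ.2 l) :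
    ∃ K : ℕ, ∀ᶠ x' in 𝓝 x, ∀ k, K ≤ k → lam k = l → astar κ k x' = 0 := by
  obtain ⟨M, hM⟩ : ∃ M : ℕ, ∀ i, M ≤ i → wt i ≤ x.2 / 2 := by
    have ht : Tendsto wt atTop (𝓝 0) := H31.summable_wt.tendsto_atTop_zero
    exact eventually_atTop.1 (ht.eventually (ge_mem_nhds (by positivity)))
  have hU1 : ∀ᶠ x' : ℝ × ℝ in 𝓝 x, x.2 / 2 < x'.2 :=
    continuous_snd.continuousAt.eventually (lt_mem_nhds (by linarith))
  have key : ∀ i, κ.2 i = l → ∃ K : ℕ, ∀ᶠ x' in 𝓝 x, ∀ k, K ≤ k → bump κ.1 k i x' = 0 := by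
    intro i hi
    set d := max |x.1 - ctr κ.1 i| |x.2 - wt i / 4| with hd
    have hd0 : 0 < d := by
      by_contra hc
      push Not at hc
      have h1 : |x.1 - ctr κ.1 i| ≤ 0 := (le_max_left _ _).trans hc
      have h2 : |x.2 - wt i / 4| ≤ 0 := (le_max_right _ _).trans hc
      have h3 := abs_eq_zero.1 (le_antisymm h1 (abs_nonneg _))
      have h4 := abs_eq_zero.1 (le_antisymm h2 (abs_nonneg _))
      refine hx ⟨i, hi, ?_⟩
      refine Prod.ext ?_ ?_ <;> simp only [mk] <;> linarith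
    have hw := H31.wt_pos i
    obtain ⟨K, hK⟩ := exists_nat_ge (wt i / (8 * d))
    refine ⟨K, ?_⟩
    have hc : Continuous fun x' : ℝ × ℝ => max |x'.1 - ctr κ.1 i| |x'.2 - wt i / 4| := by fun_prop
    have hev : ∀ᶠ x' : ℝ × ℝ in 𝓝 x, d / 2 < max |x'.1 - ctr κ.1 i| |x'.2 - wt i / 4| :=
      hc.continuousAt.eventually (lt_mem_nhds (by linarith))
    filter_upwards [hev] with x' hx' k hk
    rw [bump, max_eq_left, mul_zero]
    have h5 : (K : ℝ) ≤ k := by exact_mod_cast hk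
    have h6 : wt i ≤ k * (8 * d) := by
      rw [div_le_iff₀ (by positivity)] at hK
      nlinarith
    have h7 : 1 ≤ 16 * ((k : ℝ) + 1) * max |x'.1 - ctr κ.1 i| |x'.2 - wt i / 4| / wt i := by
      rw [le_div_iff₀ hw, one_mul]
      have h8 : (0 : ℝ) ≤ k := Nat.cast_nonneg k
      nlinarith
    linarith
  choose! K hK using key
  refine ⟨∑ i ∈ Finset.range M, K i, ?_⟩
  have hall : ∀ᶠ x' in 𝓝 x, ∀ i ∈ Set.Iio M, κ.2 i = l → ∀ k, K i ≤ k → bump κ.1 k i x' = 0 := by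
    refine ((Set.finite_Iio M).eventually_all).2 fun i _ => ?_
    by_cases hi : κ.2 i = l
    · filter_upwards [hK i hi] with x' hx' _
      exact hx'
    · exact Eventually.of_forall fun x' h' => absurd h' hi
  filter_upwards [hU1, hall] with x' h1 h2 k hk hkl
  refine Finset.sum_eq_zero fun i _ => ?_
  split_ifs with hi
  · by_cases hiM : i < M
    · refine h2 i hiM (hi.trans hkl) k (le_trans ?_ hk)
      exact Finset.single_le_sum (f := fun i => K i) (fun _ _ => Nat.zero_le _)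
        (Finset.mem_range.2 hiM)
    · exact bump_high ((hM i (not_lt.1 hiM)).trans h1.le)
  · rfl

theorem equi_other (R : Rates) (hP : Amp κ P) (h : IsLin κ.1) {p : MM} {l : ℕ}
    (hp0 : 0 < (plane p).2) (hp : plane p ∉ marks κ.1 κ.2 l) :
    EquicontinuousAt (fun (n : {n : ℕ // lam n = l}) => (tw R P)^[R.N n]) p := by
  obtain ⟨K, hK⟩ := exists_nhd (κ := κ) hp0 hp
  have hK' : ∀ᶠ p' : MM in 𝓝 p, ∀ k, K ≤ k → lam k = l → astar κ k (plane p') = 0 :=
    plane_cont.continuousAt.eventually hK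
  have hpK : ∀ k, K ≤ k → lam k = l → astar κ k (plane p) = 0 := hK'.self_of_nhds
  -- small angles
  have hang : ∀ p' : MM, (∀ k, K ≤ k → lam k = l → astar κ k (plane p') = 0) → ∀ k, K ≤ k →
      lam k = l → |BS R P (R.N k) p'.1 (plane p')| ≤ 4 * (1 / 2 : ℝ) ^ k + 4 * eps R k := by
    intro p' hp' k hk hkl
    have h1 := abs_le.1 (BS_est R hP h k p'.1 (plane_mem p'))
    have h2 := hP.approx k _ (plane_mem p')
    rw [hp' k hk hkl, sub_zero] at h2
    have h3 := re_pow_le p'.1 (R.q k)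
    have h4 : |4 * P k (plane p') * ((p'.1 : ℂ) ^ (R.q k)).re| ≤ 4 * (1 / 2 : ℝ) ^ k := by
      rw [abs_mul, abs_mul, abs_of_pos (by norm_num : (0 : ℝ) < 4)]
      calc 4 * |P k (plane p')| * |((p'.1 : ℂ) ^ (R.q k)).re| ≤ 4 * (1 / 2 : ℝ) ^ k * 1 := by
            gcongr
        _ = _ := mul_one _
    have h5 := abs_le.1 h4
    rw [abs_le]
    constructor <;> linarith [h1.1, h1.2, h5.1, h5.2]
  rw [equi_iff_MM]
  intro ε hε
  have hlim : Tendsto (fun k : ℕ => 7 * (2 * (4 * (1 / 2 : ℝ) ^ k + 4 * eps R k))) atTop (𝓝 0) := by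
    have h1 : Tendsto (fun k : ℕ => (1 / 2 : ℝ) ^ k) atTop (𝓝 0) :=
      tendsto_pow_atTop_nhds_zero_of_lt_one (by norm_num) (by norm_num)
    simpa using (((h1.const_mul 4).add ((tendsto_eps R).const_mul 4)).const_mul 2).const_mul 7
  obtain ⟨K₂, hK₂⟩ := eventually_atTop.1 (hlim.eventually (gt_mem_nhds (half_pos hε)))
  have hfin : ∀ᶠ p' in 𝓝 p, ∀ k ∈ Set.Iio (max K K₂),
      dist ((tw R P)^[R.N k] p) ((tw R P)^[R.N k] p') < ε := by
    refine ((Set.finite_Iio _).eventually_all).2 fun k _ => ?_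
    have hc : Continuous ((tw R P)^[R.N k]) := (continuous_tw R hP h).iterate _
    have := hc.continuousAt.eventually (Metric.ball_mem_nhds ((tw R P)^[R.N k] p) hε)
    filter_upwards [this] with p' hp'
    rw [dist_comm]
    exact hp'
  have hnear : ∀ᶠ p' in 𝓝 p, dist p p' < ε / 2 := by
    filter_upwards [Metric.ball_mem_nhds p (half_pos hε)] with p' hp'
    rw [dist_comm]
    exact hp'
  obtain ⟨δ, hδ, hall⟩ := Metric.eventually_nhds_iff.1 (hK'.and (hfin.and hnear))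
  refine ⟨δ, hδ, fun p' hp' n => ?_⟩
  obtain ⟨a1, a2, a3⟩ := hall hp'
  by_cases hn : (n : ℕ) < max K K₂
  · exact a2 n hn
  · have hnK : K ≤ n := (le_max_left _ _).trans (not_lt.1 hn)
    have hnK₂ : K₂ ≤ n := (le_max_right _ _).trans (not_lt.1 hn)
    have b1 := hang p hpK n hnK n.2
    have b2 := hang p' a1 n hnK n.2
    have b3 := hK₂ n hnK₂
    refine lt_of_le_of_lt (dist_iterate_le R hP h (R.N n) p p') ?_
    have b4 : ‖(ee (BS R P (R.N n) p.1 (plane p)) : ℂ) - ee (BS R P (R.N n) p'.1 (plane p'))‖ ≤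
        7 * (2 * (4 * (1 / 2 : ℝ) ^ (n : ℕ) + 4 * eps R n)) := by
      refine (norm_ee_sub_le _ _).trans ?_
      have := abs_sub (BS R P (R.N n) p.1 (plane p)) (BS R P (R.N n) p'.1 (plane p'))
      linarith
    have b5 : ‖p.2.2.1.1‖ ≤ 1 := by
      have := S2_sq p.2.2
      nlinarith [norm_nonneg p.2.2.1.1, sq_nonneg p.2.2.1.2]
    have b6 : ‖(ee (BS R P (R.N n) p.1 (plane p)) : ℂ) - ee (BS R P (R.N n) p'.1 (plane p'))‖ *
        ‖p.2.2.1.1‖ ≤ ‖(ee (BS R P (R.N n) p.1 (plane p)) : ℂ) -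
          ee (BS R P (R.N n) p'.1 (plane p'))‖ * 1 := by gcongr
    linarith

/-- **The points of non-equicontinuity.** -/
theorem neq_tw (R : Rates) (hP : Amp κ P) (h : IsLin κ.1) (l : ℕ) :
    neq R.N (tw R P) l = plane ⁻¹' (marks κ.1 κ.2 l) := by
  ext p
  rw [mem_preimage]
  constructor
  · intro hn
    by_contra hm
    refine hn ?_
    by_cases hw : p.2.2.1.1 = 0
    · exact equi_collapsed R hP h hw l
    · refine equi_other R hP h ?_ hm
      refine lt_of_le_of_ne (plane_mem p).2.1 fun hc => hw ?_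
      have h2 : p.2.2.1.2 = -1 := by
        have : (plane p).2 = (1 + p.2.2.1.2) / 2 := rfl
        linarith
      have h3 := S2_sq p.2.2
      rw [h2] at h3
      have h4 : ‖p.2.2.1.1‖ ^ 2 = 0 := by linarith
      exact norm_eq_zero.1 (pow_eq_zero_iff two_ne_zero |>.1 h4)
  · rintro ⟨i, hi, hpi⟩
    subst hi
    exact not_equi R hP h hpi

end ANB
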