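import Pool.Agent.helper4.AN.Plane

/-!
# Non-equicontinuity: conjugacy invariance and products with the identity
-/

namespace ANB

open Set Topology Filter Uniformity

/-- the set of points of non-equicontinuity is a conjugacy invariant -/
theorem neq_conj_gen {X : Type*} [UniformSpace X] [CompactSpace X] {f g : X → X} (N : ℕ → ℕ)
    (h : X ≃ₜ X) (hc : ∀ p, h (f p) = g (h p)) (l : ℕ) : h ⁻¹' (neq N g l) = neq N f l := by
  have hit : ∀ (n : ℕ) (p : X), h (f^[n] p) = g^[n] (h p) := by
    intro n
    induction n with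
    | zero => intro p; rfl
    | succ n ih => intro p; rw [Function.iterate_succ_apply, Function.iterate_succ_apply, ih, hc]
  have huc : UniformContinuous h := CompactSpace.uniformContinuous_of_continuous h.continuous
  have huc' : UniformContinuous h.symm :=
    CompactSpace.uniformContinuous_of_continuous h.symm.continuous
  ext p
  rw [mem_preimage]
  refine not_congr ?_
  constructor
  · intro H U hU
    have h1 := H _ (huc' hU)
    have h2 := h.continuous.continuousAt.eventually h1
    filter_upwards [h2] with q hq n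
    have h3 := hq n
    rw [mem_preimage, ← hit, ← hit, Homeomorph.symm_apply_apply, Homeomorph.symm_apply_apply] at h3
    exact h3
  · intro H U hU
    have h1 := H _ (huc hU)
    have h2 : ∀ᶠ q in 𝓝 (h p), ∀ i : {n : ℕ // lam n = l},
        (f^[N i] p, f^[N i] (h.symm q)) ∈ (fun x : X × X => (h x.1, h x.2)) ⁻¹' U := by
      have h4 : Tendsto h.symm (𝓝 (h p)) (𝓝 p) := by
        have := h.symm.continuous.tendsto (h p)
        rwa [Homeomorph.symm_apply_apply] at this
      exact h4.eventually h1
    filter_upwards [h2] with q hq n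
    have h3 := hq n
    rw [mem_preimage] at h3
    simp only at h3
    rw [hit, hit, Homeomorph.apply_symm_apply] at h3
    exact h3

theorem iterate_prodMap {X Y : Type*} (f : X → X) (n : ℕ) :
    (Prod.map f (id : Y → Y))^[n] = Prod.map (f^[n]) id := by
  induction n with
  | zero => rfl
  | succ n ih => rw [Function.iterate_succ, ih, Function.iterate_succ, Prod.map_comp_map]; rfl

/-- products with the identity -/
theorem neq_prod {X Y : Type*} [UniformSpace X] [UniformSpace Y] (N : ℕ → ℕ) (f : X → X) (l : ℕ) :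
    neq N (Prod.map f (id : Y → Y)) l = Prod.fst ⁻¹' (neq N f l) := by
  ext ⟨x, y⟩
  rw [mem_preimage]
  refine not_congr ?_
  simp only [iterate_prodMap]
  constructor
  · intro H U hU
    have h1 := H _ (uniformContinuous_fst (α := X) (β := Y) hU)
    have h2 : Tendsto (fun x' : X => (x', y)) (𝓝 x) (𝓝 (x, y)) :=
      (Continuous.prodMk_left y).tendsto x
    exact h2.eventually h1
  · intro H U hU
    rw [uniformity_prod_eq_comap_prod, mem_comap] at hU
    obtain ⟨T, hT, hTU⟩ := hU
    obtain ⟨V, hV, W, hW, hVW⟩ := mem_prod_iff.1 hT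
    have h1 : ∀ᶠ q : X × Y in 𝓝 (x, y), ∀ i : {n : ℕ // lam n = l},
        (f^[N i] x, f^[N i] q.1) ∈ V :=
      (continuous_fst.tendsto ((x, y) : X × Y)).eventually (H V hV)
    have h2 : ∀ᶠ q : X × Y in 𝓝 (x, y), (y, q.2) ∈ W :=
      (continuous_snd.tendsto ((x, y) : X × Y)).eventually (mem_nhds_left y hW)
    filter_upwards [h1, h2] with q hq1 hq2 n
    refine hTU ?_
    exact hVW (mk_mem_prod (hq1 n) hq2)

/-- formulas on the product -/
theorem sem_plane_prod {Y : Type*} [TopologicalSpace Y] [Nonempty Y] {r : ℕ → ℕ → Bool}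
    (h : IsLin r) (ℓ : ℕ → ℕ) (φ : Fm) :
    (φ.sem (fun l => (Prod.fst : MM × Y → MM) ⁻¹' (plane ⁻¹' (marks r ℓ l)))).Nonempty ↔
      (φ.sem (marks r ℓ)).Nonempty := by
  rw [← sem_plane h ℓ φ, ← sem_preimage continuous_fst isOpenMap_fst]
  exact Prod.fst_surjective.nonempty_preimage

end ANB
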