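import Pool.Agent.helper4.AN.Model
import Pool.Agent.helper4.AN.Neq
import Pool.Agent.helper4.AN.Prod
import Pool.Agent.helper4.AN.Diag

/-!
# The conjugacy relation on `S¹ × S¹ × S² × N` is not Borel
-/

namespace ANB

open Set Topology Filter MeasureTheory
open scoped Manifold ContDiff

section

variable {E' : Type*} [NormedAddCommGroup E'] [NormedSpace ℝ E'] {H' : Type*} [TopologicalSpace H']
  (J : ModelWithCorners ℝ E' H') (N : Type*) [TopologicalSpace N] [ChartedSpace H' N]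

/-- the diffeomorphism of a code, times the identity of `N` -/
noncomputable def fN (κ : Cd) : DiffOmega (IM.prod J) (TS × N) :=
  (fD κ).prodCongr (Diffeomorph.refl J N ω)

theorem fN_apply (κ : Cd) (p : TS × N) : fN J N κ p = (fD κ p.1, p.2) := rfl

theorem continuous_fN [J.Boundaryless] : Continuous (fN J N) := by
  rw [continuous_induced_rng]
  have h1 : ContMDiff (𝓘(ℝ, VP).prod IM) IM ∞ FF := contMDiff_FF.of_le (by exact_mod_cast le_top)
  have hr : ContMDiff (𝓘(ℝ, VP).prod (IM.prod J)) (𝓘(ℝ, VP).prod IM) ∞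
      (fun q : VP × (TS × N) => (q.1, q.2.1)) :=
    ContMDiff.prodMk contMDiff_fst
      (ContMDiff.comp (I' := IM.prod J) (g := fun m : TS × N => m.1)
        (f := fun q : VP × (TS × N) => q.2) contMDiff_fst contMDiff_snd)
  have h2 : ContMDiff (𝓘(ℝ, VP).prod (IM.prod J)) IM ∞
      (fun q : VP × (TS × N) => FF (q.1, q.2.1)) :=
    ContMDiff.comp (I' := 𝓘(ℝ, VP).prod IM) (g := FF)
      (f := fun q : VP × (TS × N) => (q.1, q.2.1)) h1 hr
  have h3 : ContMDiff (𝓘(ℝ, VP).prod (IM.prod J)) J ∞ (fun q : VP × (TS × N) => q.2.2) :=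
    ContMDiff.comp (I' := IM.prod J) (g := fun m : TS × N => m.2)
      (f := fun q : VP × (TS × N) => q.2) contMDiff_snd contMDiff_snd
  have h4 : ContMDiff (𝓘(ℝ, VP).prod (IM.prod J)) (IM.prod J) ∞
      (fun q : VP × (TS × N) => (FF (q.1, q.2.1), q.2.2)) := h2.prodMk h3
  exact continuous_family (IM.prod J) continuous_chi h4 (toInf (IM.prod J) ∘ fN J N)
    (fun t m => rfl)

end

section

variable (N : Type*) [TopologicalSpace N]

instance compactTS : CompactSpace TS := inferInstance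

instance compactMM : CompactSpace MM := eM.compactSpace

/-- the model homeomorphism, times `N` -/
noncomputable def eN : (TS × N) ≃ₜ (MM × N) := eM.prodCongr (Homeomorph.refl N)

theorem eN_conj (κ : Cd) (p : TS × N) :
    eN N (fD κ p.1, p.2) = Prod.map (tw RR (Pn κ)) id (eN N p) := by
  refine Prod.ext ?_ rfl
  exact eM_fD κ p.1

/-- transfer of a conjugacy to the model -/
theorem conjN_model {κ κ' : Cd} (h : (TS × N) ≃ₜ (TS × N))
    (hh : ∀ p, h (fD κ p.1, p.2) = (fD κ' (h p).1, (h p).2)) :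
    ∃ e : (MM × N) ≃ₜ (MM × N), ∀ p, e (Prod.map (tw RR (Pn κ)) id p) =
      Prod.map (tw RR (Pn κ')) id (e p) := by
  refine ⟨((eN N).symm.trans h).trans (eN N), fun p => ?_⟩
  obtain ⟨m, rfl⟩ := (eN N).surjective p
  simp only [Homeomorph.trans_apply, Homeomorph.symm_apply_apply]
  rw [← eN_conj, Homeomorph.symm_apply_apply, hh, eN_conj]

theorem sem_transfer [CompactSpace N] [T2Space N] [Nonempty N] {κ κ' : Cd} (h : IsLin κ.1)
    (h' : IsLin κ'.1) (g : (TS × N) ≃ₜ (TS × N))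
    (hg : ∀ p, g (fD κ p.1, p.2) = (fD κ' (g p).1, (g p).2)) (φ : Fm)
    (hne : (φ.sem (marks κ.1 κ.2)).Nonempty) : (φ.sem (marks κ'.1 κ'.2)).Nonempty := by
  obtain ⟨e, he⟩ := conjN_model N g hg
  let _ : UniformSpace N := uniformSpaceOfCompactR1
  have h1 : (fun l => (Prod.fst : MM × N → MM) ⁻¹' (plane ⁻¹' (marks κ.1 κ.2 l))) =
      fun l => e ⁻¹' ((Prod.fst : MM × N → MM) ⁻¹' (plane ⁻¹' (marks κ'.1 κ'.2 l))) := by
    funext l
    rw [← neq_tw RR (amp_Pn κ) h l, ← neq_tw RR (amp_Pn κ') h' l, ← neq_prod (Y := N),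
      ← neq_prod (Y := N), neq_conj_gen RR.N e he l]
  rw [← sem_plane_prod (Y := N) h κ.2 φ, h1, ← sem_homeo] at hne
  rw [← sem_plane_prod (Y := N) h' κ'.2 φ]
  obtain ⟨p, hp⟩ := hne
  exact ⟨e p, hp⟩

end

section

variable {E' : Type*} [NormedAddCommGroup E'] [NormedSpace ℝ E'] {H' : Type*} [TopologicalSpace H']
  (J : ModelWithCorners ℝ E' H') (N : Type*) [TopologicalSpace N] [ChartedSpace H' N]

theorem not_borel_prod
    (comb : ∀ B : Set (ℕ → Bool), MeasurableSet B → ∃ (r : ℕ → ℕ → Bool)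
      (L : (ℕ → Bool) → ℕ → ℕ) (ℓp ℓm : ℕ → ℕ) (φ : Fm), IsLin r ∧ Continuous L ∧
      (∀ x ∈ B, Iso (r, L x) (r, ℓp)) ∧ (∀ x ∉ B, Iso (r, L x) (r, ℓm)) ∧
      (φ.sem (marks r ℓp)).Nonempty ∧ φ.sem (marks r ℓm) = ∅)
    [J.Boundaryless] [CompactSpace N] [T2Space N] [Nonempty N] :
    ¬ BorelConj (IM.prod J) (TS × N) := by
  rw [BorelConj]
  refine diag_abstract comb (fN J N) (continuous_fN J N) _ ?_ ?_ ?_ ?_
  · rintro a b ⟨h, hh⟩
    refine ⟨h.symm, fun m => ?_⟩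
    rw [Homeomorph.symm_apply_eq, hh, Homeomorph.apply_symm_apply]
  · rintro a b c ⟨h, hh⟩ ⟨h', hh'⟩
    refine ⟨h.trans h', fun m => ?_⟩
    simp only [Homeomorph.trans_apply]
    rw [hh, hh']
  · intro κ κ' hκ hκ' hi
    obtain ⟨h, hh⟩ := (conj_iff κ κ').2 (conj_of_iso RR (amp_Pn κ) (amp_Pn κ') hκ hκ' hi)
    refine ⟨h.prodCongr (Homeomorph.refl N), fun p => ?_⟩
    exact Prod.ext (hh p.1) rfl
  · rintro κ κ' hκ hκ' ⟨g, hg⟩ φ hne
    exact sem_transfer N hκ hκ' g hg φ hne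

end

end ANB
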