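import Pool.Agent.helper4.AN.Top
import Pool.Agent.helper4.AN.Ang

/-!
# The family of real analytic diffeomorphisms of `S¹ × S¹ × S²`
-/

namespace ANB

open Set Topology Filter
open scoped Manifold ContDiff BoundedContinuousFunction

attribute [local instance] finrank_real_complex_fact'

/-- rotation of `ℝ³` about the third axis by the angle `2π t` -/
noncomputable def rotE (t : ℝ) (p : EuclideanSpace ℝ (Fin 3)) : EuclideanSpace ℝ (Fin 3) :=
  !₂[Real.cos (2 * Real.pi * t) * p 0 - Real.sin (2 * Real.pi * t) * p 1,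
    Real.sin (2 * Real.pi * t) * p 0 + Real.cos (2 * Real.pi * t) * p 1, p 2]

theorem norm_rotE (t : ℝ) (p : EuclideanSpace ℝ (Fin 3)) : ‖rotE t p‖ = ‖p‖ := by
  rw [EuclideanSpace.norm_eq, EuclideanSpace.norm_eq]
  congr 1
  rw [Fin.sum_univ_three, Fin.sum_univ_three]
  simp only [rotE, Real.norm_eq_abs, sq_abs]
  simp only [Matrix.cons_val_zero, Matrix.cons_val_one, Matrix.cons_val]
  have := Real.sin_sq_add_cos_sq (2 * Real.pi * t)
  nlinarith [this]

/-- rotation of the sphere -/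
noncomputable def rotSph (t : ℝ) (p : Sph) : Sph := ⟨rotE t p, by
  rw [mem_sphere_zero_iff_norm, norm_rotE]
  exact mem_sphere_zero_iff_norm.1 p.2⟩

theorem rotE_rotE (s t : ℝ) (p : EuclideanSpace ℝ (Fin 3)) : rotE s (rotE t p) = rotE (s + t) p := by
  ext i
  simp only [rotE, mul_add, Real.cos_add, Real.sin_add]
  fin_cases i
  · simp
    ring
  · simp
    ring
  · simp

theorem rotE_zero (p : EuclideanSpace ℝ (Fin 3)) : rotE 0 p = p := by
  ext i
  fin_cases i <;> simp [rotE]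

theorem rotSph_rotSph (s t : ℝ) (p : Sph) : rotSph s (rotSph t p) = rotSph (s + t) p :=
  Subtype.ext (rotE_rotE s t p)

theorem rotSph_zero (p : Sph) : rotSph 0 p = p := Subtype.ext (rotE_zero p)

/-- the family of diffeomorphisms -/
noncomputable def FF (q : VP × TS) : TS :=
  (ee RR.α * q.2.1, q.2.2.1,
    rotSph (Gre (q.1, (q.2.1 : ℂ), (q.2.2.1 : ℂ).re, (1 + (q.2.2.2 : EuclideanSpace ℝ (Fin 3)) 2) / 2))
      q.2.2.2)

/-- the family of inverses -/
noncomputable def FFi (q : VP × TS) : TS :=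
  (ee (-RR.α) * q.2.1, q.2.2.1,
    rotSph (-Gre (q.1, ((ee (-RR.α) * q.2.1 : Circle) : ℂ), (q.2.2.1 : ℂ).re,
      (1 + (q.2.2.2 : EuclideanSpace ℝ (Fin 3)) 2) / 2)) q.2.2.2)

theorem contMDiff_coe_circle : ContMDiff (𝓡 1) 𝓘(ℝ, ℂ) ω (fun z : Circle => (z : ℂ)) :=
  contMDiff_coe_sphere (E := ℂ) (n := 1)

theorem fact3 : Fact (Module.finrank ℝ (EuclideanSpace ℝ (Fin 3)) = 2 + 1) := ⟨by simp⟩

theorem contMDiff_coe_sph : ContMDiff (𝓡 2) 𝓘(ℝ, EuclideanSpace ℝ (Fin 3)) ω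
    (fun z : Sph => (z : EuclideanSpace ℝ (Fin 3))) := by
  have := fact3
  exact contMDiff_coe_sphere (E := EuclideanSpace ℝ (Fin 3)) (n := 2)

theorem codRestrict_sph {F : Type*} [NormedAddCommGroup F] [NormedSpace ℝ F]
    {H : Type*} [TopologicalSpace H] {I : ModelWithCorners ℝ F H}
    {M : Type*} [TopologicalSpace M] [ChartedSpace H M] [IsManifold I ω M]
    {f : M → EuclideanSpace ℝ (Fin 3)}
    (hf : ContMDiff I 𝓘(ℝ, EuclideanSpace ℝ (Fin 3)) ω f)
    (hf' : ∀ x, f x ∈ Metric.sphere (0 : EuclideanSpace ℝ (Fin 3)) 1) :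
    ContMDiff I (𝓡 2) ω (fun x => (⟨f x, hf' x⟩ : Sph)) := by
  have := fact3
  exact hf.codRestrict_sphere hf'

theorem contDiff_rotE : ContDiff ℝ ω (fun p : ℝ × EuclideanSpace ℝ (Fin 3) => rotE p.1 p.2) := by
  have hc : ∀ i, ContDiff ℝ ω (fun p : ℝ × EuclideanSpace ℝ (Fin 3) => p.2 i) := by
    intro i
    exact ((EuclideanSpace.proj (𝕜 := ℝ) i).contDiff).comp contDiff_snd
  have hcos : ContDiff ℝ ω
      (fun p : ℝ × EuclideanSpace ℝ (Fin 3) => Real.cos (2 * Real.pi * p.1)) :=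
    Real.contDiff_cos.comp (contDiff_const.mul contDiff_fst)
  have hsin : ContDiff ℝ ω
      (fun p : ℝ × EuclideanSpace ℝ (Fin 3) => Real.sin (2 * Real.pi * p.1)) :=
    Real.contDiff_sin.comp (contDiff_const.mul contDiff_fst)
  rw [contDiff_euclidean]
  intro i
  fin_cases i
  · exact (hcos.mul (hc 0)).sub (hsin.mul (hc 1))
  · exact (hsin.mul (hc 0)).add (hcos.mul (hc 1))
  · exact hc 2


/-- model of parameters times manifold -/
noncomputable abbrev JM := (𝓘(ℝ, VP).prod IM)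

theorem smooth_z : ContMDiff JM (𝓡 1) ω (fun q : VP × TS => q.2.1) :=
  ContMDiff.comp (I' := IM) (g := fun m : TS => m.1) (f := fun q : VP × TS => q.2) contMDiff_fst contMDiff_snd

theorem smooth_σ : ContMDiff JM (𝓡 1) ω (fun q : VP × TS => q.2.2.1) := by
  have h1 : ContMDiff IM (𝓡 1) ω (fun m : TS => m.2.1) :=
    ContMDiff.comp (I' := (𝓡 1).prod (𝓡 2)) (g := fun m : Circle × Sph => m.1) (f := fun q : TS => q.2) contMDiff_fst contMDiff_snd
  exact ContMDiff.comp (I' := IM) (g := fun m : TS => m.2.1) (f := fun q : VP × TS => q.2) h1 contMDiff_snd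

theorem smooth_p : ContMDiff JM (𝓡 2) ω (fun q : VP × TS => q.2.2.2) := by
  have h1 : ContMDiff IM (𝓡 2) ω (fun m : TS => m.2.2) :=
    ContMDiff.comp (I' := (𝓡 1).prod (𝓡 2)) (g := fun m : Circle × Sph => m.2) (f := fun q : TS => q.2) contMDiff_snd contMDiff_snd
  exact ContMDiff.comp (I' := IM) (g := fun m : TS => m.2.2) (f := fun q : VP × TS => q.2) h1 contMDiff_snd

theorem smooth_pE : ContMDiff JM 𝓘(ℝ, EuclideanSpace ℝ (Fin 3)) ω
      (fun q : VP × TS => (q.2.2.2 : EuclideanSpace ℝ (Fin 3))) :=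
  ContMDiff.comp (I' := 𝓡 2) (g := fun p : Sph => (p : EuclideanSpace ℝ (Fin 3))) (f := fun q : VP × TS => q.2.2.2) contMDiff_coe_sph smooth_p

theorem smooth_rotE {t : VP × TS → ℝ} (ht : ContMDiff JM 𝓘(ℝ, ℝ) ω t) :
   ContMDiff JM 𝓘(ℝ, EuclideanSpace ℝ (Fin 3)) ω
      (fun q : VP × TS => rotE (t q) (q.2.2.2 : EuclideanSpace ℝ (Fin 3))) :=
  ContMDiff.comp (I' := 𝓘(ℝ, ℝ × EuclideanSpace ℝ (Fin 3))) (g := fun p : ℝ × EuclideanSpace ℝ (Fin 3) => rotE p.1 p.2)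
    (f := fun q : VP × TS => (t q, (q.2.2.2 : EuclideanSpace ℝ (Fin 3)))) contDiff_rotE.contMDiff (ht.prodMk_space smooth_pE)

theorem contMDiff_rot {t : VP × TS → ℝ} (ht : ContMDiff JM 𝓘(ℝ, ℝ) ω t) :
    ContMDiff JM (𝓡 2) ω (fun q : VP × TS => rotSph (t q) q.2.2.2) :=
  codRestrict_sph (M := VP × TS) (I := JM)
    (f := fun q : VP × TS => rotE (t q) (q.2.2.2 : EuclideanSpace ℝ (Fin 3))) (smooth_rotE ht)
    (fun q => (rotSph (t q) q.2.2.2).2)

theorem smooth_s : ContMDiff JM 𝓘(ℝ, ℝ) ω (fun q : VP × TS => (q.2.2.1 : ℂ).re) :=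
  ContMDiff.comp (I' := 𝓘(ℝ, ℂ)) (g := fun z : ℂ => z.re) (f := fun q : VP × TS => (q.2.2.1 : ℂ))
    Complex.reCLM.contDiff.contMDiff
    (ContMDiff.comp (I' := 𝓡 1) (g := fun z : Circle => (z : ℂ)) (f := fun q : VP × TS => q.2.2.1)
      contMDiff_coe_circle smooth_σ)

theorem smooth_ρ : ContMDiff JM 𝓘(ℝ, ℝ) ω
    (fun q : VP × TS => (1 + (q.2.2.2 : EuclideanSpace ℝ (Fin 3)) 2) / 2) := by
  have h4 : ContDiff ℝ ω (fun p : EuclideanSpace ℝ (Fin 3) => (1 + p 2) / 2) := by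
    have h5 : ContDiff ℝ ω (fun p : EuclideanSpace ℝ (Fin 3) => p 2) :=
      (EuclideanSpace.proj (𝕜 := ℝ) (2 : Fin 3)).contDiff
    exact (contDiff_const.add h5).div_const 2
  exact ContMDiff.comp (I' := 𝓘(ℝ, EuclideanSpace ℝ (Fin 3)))
    (g := fun p : EuclideanSpace ℝ (Fin 3) => (1 + p 2) / 2)
    (f := fun q : VP × TS => (q.2.2.2 : EuclideanSpace ℝ (Fin 3))) h4.contMDiff smooth_pE

theorem smooth_rz (c : Circle) : ContMDiff JM (𝓡 1) ω (fun q : VP × TS => c * q.2.1) :=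
  (contMDiff_const (c := c)).mul smooth_z

theorem smooth_arg (c : Circle) : ContMDiff JM 𝓘(ℝ, ℝ) ω
    (fun q : VP × TS => Gre (q.1, ((c * q.2.1 : Circle) : ℂ), (q.2.2.1 : ℂ).re,
      (1 + (q.2.2.2 : EuclideanSpace ℝ (Fin 3)) 2) / 2)) := by
  have h1 : ContMDiff JM 𝓘(ℝ, ℂ) ω (fun q : VP × TS => ((c * q.2.1 : Circle) : ℂ)) :=
    ContMDiff.comp (I' := 𝓡 1) (g := fun z : Circle => (z : ℂ)) (f := fun q : VP × TS => c * q.2.1)
      contMDiff_coe_circle (smooth_rz c)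
  have h0 : ContMDiff JM 𝓘(ℝ, VP) ω (fun q : VP × TS => q.1) := contMDiff_fst
  exact ContMDiff.comp (I' := 𝓘(ℝ, VV)) (g := Gre)
    (f := fun q : VP × TS => (q.1, ((c * q.2.1 : Circle) : ℂ), (q.2.2.1 : ℂ).re,
      (1 + (q.2.2.2 : EuclideanSpace ℝ (Fin 3)) 2) / 2)) contDiff_Gre.contMDiff
    (h0.prodMk_space (h1.prodMk_space (smooth_s.prodMk_space smooth_ρ)))

theorem contMDiff_FF : ContMDiff JM IM ω FF := by
  have h1 := smooth_arg 1
  simp only [one_mul] at h1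
  exact (smooth_rz (ee RR.α)).prodMk (smooth_σ.prodMk (contMDiff_rot h1))

theorem contMDiff_FFi : ContMDiff JM IM ω FFi :=
  (smooth_rz (ee (-RR.α))).prodMk (smooth_σ.prodMk (contMDiff_rot (smooth_arg (ee (-RR.α))).neg))

theorem rotSph_two (t : ℝ) (p : Sph) :
    (rotSph t p : EuclideanSpace ℝ (Fin 3)) 2 = (p : EuclideanSpace ℝ (Fin 3)) 2 := by
  simp [rotSph, rotE]

theorem FFi_FF (χ : VP) (m : TS) : FFi (χ, FF (χ, m)) = m := by
  obtain ⟨z, σ, p⟩ := m
  simp only [FF, FFi, rotSph_two]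
  have h1 : ee (-RR.α) * (ee RR.α * z) = z := by
    rw [← mul_assoc, ← ee_add, neg_add_cancel, ee_zero, one_mul]
  rw [h1, rotSph_rotSph, neg_add_cancel, rotSph_zero]

theorem FF_FFi (χ : VP) (m : TS) : FF (χ, FFi (χ, m)) = m := by
  obtain ⟨z, σ, p⟩ := m
  simp only [FF, FFi, rotSph_two]
  have h1 : ee RR.α * (ee (-RR.α) * z) = z := by
    rw [← mul_assoc, ← ee_add, add_neg_cancel, ee_zero, one_mul]
  rw [h1, rotSph_rotSph, add_neg_cancel, rotSph_zero]

/-- the real analytic diffeomorphism of a code -/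
noncomputable def fD (κ : Cd) : DiffOmega IM TS where
  toFun m := FF (chi κ, m)
  invFun m := FFi (chi κ, m)
  left_inv m := FFi_FF _ m
  right_inv m := FF_FFi _ m
  contMDiff_toFun := contMDiff_FF.comp ((contMDiff_const (c := chi κ)).prodMk contMDiff_id)
  contMDiff_invFun := contMDiff_FFi.comp ((contMDiff_const (c := chi κ)).prodMk contMDiff_id)

theorem fD_apply (κ : Cd) (m : TS) : fD κ m = FF (chi κ, m) := rfl

/-- the diffeomorphism depends continuously on the code -/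
theorem continuous_fD : Continuous fD := by
  rw [continuous_induced_rng]
  have h1 : ContMDiff (𝓘(ℝ, VP).prod IM) IM ∞ FF := contMDiff_FF.of_le (by exact_mod_cast le_top)
  exact continuous_family IM continuous_chi h1 (toInf IM ∘ fD) (fun t m => rfl)

end ANB
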