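import Pool.Agent.helper4.AN.Mfd

/-!
# Topological model of the family
-/

namespace ANB

open Set Topology Filter

theorem sph_sum (p : Sph) : (p : EuclideanSpace ℝ (Fin 3)) 0 ^ 2 +
    (p : EuclideanSpace ℝ (Fin 3)) 1 ^ 2 + (p : EuclideanSpace ℝ (Fin 3)) 2 ^ 2 = 1 := by
  have h := mem_sphere_zero_iff_norm.1 p.2
  rw [EuclideanSpace.norm_eq, Real.sqrt_eq_one, Fin.sum_univ_three] at h
  simpa [Real.norm_eq_abs, sq_abs] using h

theorem norm_mk_sq (a b : ℝ) : ‖(⟨a, b⟩ : ℂ)‖ ^ 2 = a ^ 2 + b ^ 2 := by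
  rw [← Complex.normSq_eq_norm_sq, Complex.normSq_mk]
  ring

/-- `S²` as a subset of `ℂ × ℝ` -/
noncomputable def eS : Sph ≃ₜ S2 where
  toFun p := ⟨(⟨(p : EuclideanSpace ℝ (Fin 3)) 0, (p : EuclideanSpace ℝ (Fin 3)) 1⟩,
    (p : EuclideanSpace ℝ (Fin 3)) 2), by
      simp only
      rw [norm_mk_sq]
      exact sph_sum p⟩
  invFun v := ⟨!₂[v.1.1.re, v.1.1.im, v.1.2], by
    rw [mem_sphere_zero_iff_norm, EuclideanSpace.norm_eq, Real.sqrt_eq_one, Fin.sum_univ_three]
    have h := v.2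
    have h2 : ‖v.1.1‖ ^ 2 = v.1.1.re ^ 2 + v.1.1.im ^ 2 := by
      rw [← Complex.normSq_eq_norm_sq, Complex.normSq_apply]
      ring
    rw [h2] at h
    simpa [Real.norm_eq_abs, sq_abs] using h⟩
  left_inv p := by
    refine Subtype.ext ?_
    ext i
    fin_cases i <;> simp
  right_inv v := by
    refine Subtype.ext ?_
    refine Prod.ext ?_ ?_
    · apply Complex.ext <;> simp
    · simp
  continuous_toFun := by
    refine Continuous.subtype_mk ?_ _
    have hc : ∀ i, Continuous fun p : Sph => (p : EuclideanSpace ℝ (Fin 3)) i := fun i =>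
      ((EuclideanSpace.proj (𝕜 := ℝ) i).continuous).comp continuous_subtype_val
    refine Continuous.prodMk ?_ (hc 2)
    have : (fun p : Sph => (⟨(p : EuclideanSpace ℝ (Fin 3)) 0, (p : EuclideanSpace ℝ (Fin 3)) 1⟩ : ℂ)) =
        fun p : Sph => (((p : EuclideanSpace ℝ (Fin 3)) 0 : ℝ) : ℂ) +
          (((p : EuclideanSpace ℝ (Fin 3)) 1 : ℝ) : ℂ) * Complex.I := by
      funext p
      exact Complex.mk_eq_add_mul_I _ _
    rw [this]
    exact (Complex.continuous_ofReal.comp (hc 0)).add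
      ((Complex.continuous_ofReal.comp (hc 1)).mul continuous_const)
  continuous_invFun := by
    refine Continuous.subtype_mk ?_ _
    have hv : Continuous fun v : S2 => (v.1 : ℂ × ℝ) := continuous_subtype_val
    refine (PiLp.continuous_toLp 2 _).comp (continuous_pi fun i => ?_)
    fin_cases i
    · exact Complex.continuous_re.comp (continuous_fst.comp hv)
    · exact Complex.continuous_im.comp (continuous_fst.comp hv)
    · exact continuous_snd.comp hv

/-- the model homeomorphism -/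
noncomputable def eM : TS ≃ₜ MM :=
  (Homeomorph.refl Circle).prodCongr ((Homeomorph.refl Circle).prodCongr eS)

theorem eM_apply (m : TS) : eM m = (m.1, m.2.1, eS m.2.2) := rfl

theorem eS_val (p : Sph) : (eS p).1 = (⟨(p : EuclideanSpace ℝ (Fin 3)) 0,
    (p : EuclideanSpace ℝ (Fin 3)) 1⟩, (p : EuclideanSpace ℝ (Fin 3)) 2) := rfl

theorem eS_rotSph (t : ℝ) (p : Sph) : eS (rotSph t p) = rotS (ee t) (eS p) := by
  refine Subtype.ext ?_
  have h1 : ((ee t : Circle) : ℂ) = ⟨Real.cos (2 * Real.pi * t), Real.sin (2 * Real.pi * t)⟩ := by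
    rw [ee, Circle.coe_exp]
    apply Complex.ext
    · rw [Complex.exp_ofReal_mul_I_re]
    · rw [Complex.exp_ofReal_mul_I_im]
  simp only [rotS, eS_val, h1]
  refine Prod.ext ?_ ?_
  · apply Complex.ext
    · simp [rotSph, rotE]
    · simp [rotSph, rotE]
      ring
  · simp [rotSph, rotE]

theorem eM_fD (κ : Cd) (m : TS) : eM (fD κ m) = tw RR (Pn κ) (eM m) := by
  rw [fD_apply]
  simp only [FF, eM_apply, tw, Gre_chi, eS_rotSph]
  rfl

/-- topological conjugacy of the diffeomorphisms = topological conjugacy of the models -/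
theorem conj_iff (κ κ' : Cd) : (∃ h : TS ≃ₜ TS, ∀ m, h (fD κ m) = fD κ' (h m)) ↔
    ∃ h : MM ≃ₜ MM, ∀ p, h (tw RR (Pn κ) p) = tw RR (Pn κ') (h p) := by
  constructor
  · rintro ⟨h, hh⟩
    refine ⟨(eM.symm.trans h).trans eM, fun p => ?_⟩
    obtain ⟨m, rfl⟩ := eM.surjective p
    simp only [Homeomorph.trans_apply, Homeomorph.symm_apply_apply]
    rw [← eM_fD, Homeomorph.symm_apply_apply, hh, eM_fD]
  · rintro ⟨h, hh⟩
    refine ⟨(eM.trans h).trans eM.symm, fun m => ?_⟩
    simp only [Homeomorph.trans_apply]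
    rw [eM_fD, hh, Homeomorph.symm_apply_eq, eM_fD, Homeomorph.apply_symm_apply]

end ANB
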