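import Pool.Agent.helper31.AN.Conj3

/-!
# Formulas under open maps; the plane coordinate is an open map onto the rectangle
-/

namespace ANB

open Set Topology Filter

theorem sem_preimage {Z W : Type*} [TopologicalSpace Z] [TopologicalSpace W] {f : Z → W}
    (hf : Continuous f) (ho : IsOpenMap f) (P : ℕ → Set W) (φ : Fm) :
    f ⁻¹' (φ.sem P) = φ.sem (fun l => f ⁻¹' P l) := by
  induction φ with
  | atom l => rfl
  | diff a b iha ihb => simp only [Fm.sem, preimage_sdiff, iha, ihb]
  | union g ih => simp only [Fm.sem, preimage_iUnion, ih]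
  | inter g ih => simp only [Fm.sem, preimage_iInter, ih]
  | cl a ih => simp only [Fm.sem]; rw [ho.preimage_closure_eq_closure_preimage hf, ih]

theorem sem_homeo {Z W : Type*} [TopologicalSpace Z] [TopologicalSpace W] (h : Z ≃ₜ W)
    (P : ℕ → Set W) (φ : Fm) : h ⁻¹' (φ.sem P) = φ.sem (fun l => h ⁻¹' P l) :=
  sem_preimage h.continuous h.isOpenMap P φ

theorem sem_image {Z W : Type*} [TopologicalSpace Z] [TopologicalSpace W] {e : Z → W}
    (he : IsClosedEmbedding e) (P : ℕ → Set Z) (φ : Fm) :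
    φ.sem (fun l => e '' P l) = e '' (φ.sem P) := by
  induction φ with
  | atom l => rfl
  | diff a b iha ihb => simp only [Fm.sem, image_sdiff he.injective, iha, ihb]
  | union g ih => simp only [Fm.sem, image_iUnion, ih]
  | inter g ih =>
    simp only [Fm.sem, ih]
    exact (he.injective.injOn.image_iInter_eq (s := fun n => (g n).sem P)).symm
  | cl a ih => simp only [Fm.sem]; rw [ih, he.closure_image_eq]

/-- the point of the circle with given real part -/
noncomputable def secC (ε s : ℝ) (hs : s ∈ Icc (-1 : ℝ) 1) (hε : ε ^ 2 = 1) : Circle :=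
  ⟨(s : ℂ) + (ε * Real.sqrt (1 - s ^ 2) : ℝ) * Complex.I, by
    refine mem_sphere_zero_iff_norm.2 ?_
    rw [← sq_eq_sq₀ (norm_nonneg _) zero_le_one, ← Complex.normSq_eq_norm_sq,
      Complex.normSq_add_mul_I, mul_pow, hε, Real.sq_sqrt (by nlinarith [hs.1, hs.2])]
    ring⟩

/-- the plane coordinate as a map to the rectangle -/
noncomputable def planeR (p : MM) : Rect := ⟨plane p, H31.plane_mem p⟩

theorem continuous_planeR : Continuous planeR := H31.plane_cont.subtype_mk _

theorem planeR_section (p : MM) :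
    ∃ g : Rect → MM, Continuous g ∧ g (planeR p) = p ∧ Function.RightInverse g planeR := by
  obtain ⟨z, σ, v⟩ := p
  -- circle part
  have hσ := H31.circle_sq σ
  obtain ⟨ε, hε, hεσ⟩ : ∃ ε : ℝ, ε ^ 2 = 1 ∧ (σ : ℂ).im = ε * Real.sqrt (1 - (σ : ℂ).re ^ 2) := by
    have h1 : Real.sqrt (1 - (σ : ℂ).re ^ 2) = |(σ : ℂ).im| := by
      rw [← Real.sqrt_sq_eq_abs]
      congr 1
      linarith
    rw [h1]
    rcases le_total 0 (σ : ℂ).im with h | h
    · exact ⟨1, by norm_num, by rw [abs_of_nonneg h, one_mul]⟩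
    · exact ⟨-1, by norm_num, by rw [abs_of_nonpos h]; ring⟩
  -- sphere part
  obtain ⟨u, hu, huv⟩ : ∃ u : ℂ, ‖u‖ = 1 ∧ v.1.1 = (Real.sqrt (1 - v.1.2 ^ 2) : ℂ) * u := by
    have h1 : Real.sqrt (1 - v.1.2 ^ 2) = ‖v.1.1‖ := by
      rw [← Real.sqrt_sq (norm_nonneg v.1.1)]
      congr 1
      have := H31.S2_sq v
      linarith
    rw [h1]
    by_cases hw : v.1.1 = 0
    · exact ⟨1, by simp, by simp [hw]⟩
    · refine ⟨v.1.1 / ‖v.1.1‖, by simp [hw], ?_⟩
      have : (‖v.1.1‖ : ℂ) ≠ 0 := by simpa using hw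
      field_simp
  have hy : ∀ x : Rect, (2 * x.1.2 - 1) ^ 2 ≤ 1 := fun x => by
    have := x.2.2
    nlinarith [this.1, this.2]
  refine ⟨fun x => (z, secC ε x.1.1 x.2.1 hε, ⟨((Real.sqrt (1 - (2 * x.1.2 - 1) ^ 2) : ℂ) * u,
    2 * x.1.2 - 1), by
      simp only [norm_mul, hu, mul_one, Complex.norm_real, Real.norm_eq_abs, sq_abs]
      rw [Real.sq_sqrt (by linarith [hy x])]
      ring⟩), ?_, ?_, ?_⟩
  · have hx1 : Continuous fun x : Rect => x.1.1 := continuous_fst.comp continuous_subtype_val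
    have hx2 : Continuous fun x : Rect => x.1.2 := continuous_snd.comp continuous_subtype_val
    refine continuous_const.prodMk (Continuous.prodMk ?_ ?_)
    · refine Continuous.subtype_mk ?_ _
      exact (Complex.continuous_ofReal.comp hx1).add ((Complex.continuous_ofReal.comp
        (continuous_const.mul (Real.continuous_sqrt.comp
          (continuous_const.sub (hx1.pow 2))))).mul continuous_const)
    · refine Continuous.subtype_mk ?_ _
      have h3 : Continuous fun x : Rect => 2 * x.1.2 - 1 := (continuous_const.mul hx2).sub continuous_const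
      refine Continuous.prodMk ?_ h3
      exact (Complex.continuous_ofReal.comp (Real.continuous_sqrt.comp
          (continuous_const.sub (h3.pow 2)))).mul continuous_const
  · refine Prod.ext rfl (Prod.ext ?_ ?_)
    · refine Subtype.ext ?_
      show (((σ : ℂ).re : ℝ) : ℂ) + (ε * Real.sqrt (1 - (σ : ℂ).re ^ 2) : ℝ) * Complex.I = (σ : ℂ)
      rw [← hεσ]
      exact Complex.re_add_im _
    · refine Subtype.ext (Prod.ext ?_ ?_)
      · show (Real.sqrt (1 - (2 * ((1 + v.1.2) / 2) - 1) ^ 2) : ℂ) * u = v.1.1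
        rw [huv]
        congr 4
        ring
      · show 2 * ((1 + v.1.2) / 2) - 1 = v.1.2
        ring
  · intro x
    refine Subtype.ext (Prod.ext ?_ ?_)
    · show ((x.1.1 : ℂ) + (ε * Real.sqrt (1 - x.1.1 ^ 2) : ℝ) * Complex.I).re = x.1.1
      simp
    · show (1 + (2 * x.1.2 - 1)) / 2 = x.1.2
      ring

theorem isOpenMap_planeR : IsOpenMap planeR :=
  IsOpenMap.of_sections fun p => by
    obtain ⟨g, h1, h2, h3⟩ := planeR_section p
    exact ⟨g, h1.continuousAt, h2, h3⟩

theorem surjective_planeR : Function.Surjective planeR := by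
  obtain ⟨g, _, _, h3⟩ := planeR_section ((1, 1, ⟨(0, 1), by simp⟩) : MM)
  exact h3.surjective

theorem mk_mem_Rect {r : ℕ → ℕ → Bool} (h : IsLin r) (i : ℕ) : mk r i ∈ Rect := by
  have h1 := H31.lft_nonneg (r := r) i
  have h2 := H31.lft_add_le_half h i
  have h3 := H31.wt_pos i
  have h4 := H31.wt_le i
  refine ⟨⟨?_, ?_⟩, ⟨?_, ?_⟩⟩ <;> simp only [mk, ctr] <;> linarith

/-- formulas evaluated on the manifold and on the plane -/
theorem sem_plane {r : ℕ → ℕ → Bool} (h : IsLin r) (ℓ : ℕ → ℕ) (φ : Fm) :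
    (φ.sem (fun l => plane ⁻¹' (marks r ℓ l))).Nonempty ↔ (φ.sem (marks r ℓ)).Nonempty := by
  set Q : ℕ → Set Rect := fun l => Subtype.val ⁻¹' (marks r ℓ l) with hQ
  have h1 : (fun l => plane ⁻¹' (marks r ℓ l)) = fun l => planeR ⁻¹' (Q l) := by
    funext l
    rfl
  have h2 : (fun l => Subtype.val '' (Q l)) = marks r ℓ := by
    funext l
    rw [hQ, Subtype.image_preimage_coe, inter_eq_right]
    rintro _ ⟨i, _, rfl⟩
    exact mk_mem_Rect h i
  have h3 : IsClosedEmbedding (Subtype.val : Rect → ℝ × ℝ) :=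
    (isClosed_Icc.prod isClosed_Icc).isClosedEmbedding_subtypeVal
  rw [h1, ← sem_preimage continuous_planeR isOpenMap_planeR, ← h2, sem_image h3, image_nonempty]
  exact surjective_planeR.nonempty_preimage

end ANB
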