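import Mathlib

/-!
# Setting: diffeomorphism groups, the `C^∞` topology, the manifolds `S¹ × S¹ × S² × N`

`M` is a manifold in the sense of Mathlib: a topological space with a charted space structure over
the model space `H` of the model with corners `I : ModelWithCorners ℝ E H`; it is real analytic if
`IsManifold I ω M`.  The real analytic (`n = ω`) and smooth (`n = ∞`) diffeomorphisms are Mathlib's
`Diffeomorph I I M M n`: bijections `f : M ≃ M` with `f` and `f⁻¹` of class `C^n`.
-/

namespace ANB

open Set Topology MeasureTheory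
open scoped Manifold ContDiff

section

variable {E : Type*} [NormedAddCommGroup E] [NormedSpace ℝ E] {H : Type*} [TopologicalSpace H]
  (I : ModelWithCorners ℝ E H) (M : Type*) [TopologicalSpace M] [ChartedSpace H M]

/-- `Diff^∞(M)`: the smooth diffeomorphisms of `M`. -/
abbrev DiffInf : Type _ := Diffeomorph I I M M ∞

/-- `Diff^ω(M)`: the real analytic diffeomorphisms of `M`. -/
abbrev DiffOmega : Type _ := Diffeomorph I I M M ω

variable {M}

/-- The map `f` read in the charts `φ` (of the source) and `ψ` (of the target). -/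
noncomputable def inCharts (φ ψ : OpenPartialHomeomorph M H) (f : M → M) : E → E :=
  ψ.extend I ∘ f ∘ (φ.extend I).symm

/-- The `j`-th derivative of the map `f`, read in the charts `φ` and `ψ`, at the point `x ∈ M`.
(For manifolds without boundary `range I` is the whole space `E`.) -/
noncomputable def chartDeriv (φ ψ : OpenPartialHomeomorph M H) (f : M → M) (j : ℕ) (x : M) :
    E [×j]→L[ℝ] E :=
  iteratedFDerivWithin ℝ j (inCharts I φ ψ f) (range I) (φ.extend I x)

/-- The basic neighbourhood `N^k(f; (φ,U), (ψ,V), K, ε)` of Hirsch, Differential Topology,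
Chapter 2: all `g ∈ Diff^∞(M)` with `g(K) ⊆ V` whose derivatives of order `j ≤ k`, read in the
charts `(φ, U)` and `(ψ, V)`, are `ε`-close to those of `f` at all points of `K`. -/
def hirschNhd (f : DiffInf I M) (φ ψ : OpenPartialHomeomorph M H) (K : Set M) (k : ℕ) (ε : ℝ) :
    Set (DiffInf I M) :=
  {g | g '' K ⊆ ψ.source ∧
    ∀ x ∈ K, ∀ j ≤ k, ‖chartDeriv I φ ψ g j x - chartDeriv I φ ψ f j x‖ < ε}

/-- The `C^∞` topology on `Diff^∞(M)` (for compact `M`): it is generated by the sets
`N^k(f; (φ,U), (ψ,V), K, ε)`, where `(φ,U)`, `(ψ,V)` are smooth charts of `M`, `K ⊆ U` is compact,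
`f(K) ⊆ V`, `k ∈ ℕ` and `ε > 0`. -/
instance cInfTopology : TopologicalSpace (DiffInf I M) :=
  TopologicalSpace.generateFrom
    {S | ∃ (f : DiffInf I M) (φ ψ : OpenPartialHomeomorph M H) (K : Set M) (k : ℕ) (ε : ℝ),
      φ ∈ IsManifold.maximalAtlas I ∞ M ∧ ψ ∈ IsManifold.maximalAtlas I ∞ M ∧ IsCompact K ∧
      K ⊆ φ.source ∧ f '' K ⊆ ψ.source ∧ 0 < ε ∧ S = hirschNhd I f φ ψ K k ε}

/-- The inclusion `Diff^ω(M) ⊆ Diff^∞(M)`. -/
def toInf (f : DiffOmega I M) : DiffInf I M where
  toEquiv := f.toEquiv
  contMDiff_toFun := f.contMDiff_toFun.of_le (by exact_mod_cast le_top)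
  contMDiff_invFun := f.contMDiff_invFun.of_le (by exact_mod_cast le_top)

/-- `Diff^ω(M)` carries the topology it inherits as a subset of `Diff^∞(M)`. -/
instance omegaTopology : TopologicalSpace (DiffOmega I M) :=
  TopologicalSpace.induced (toInf I) (cInfTopology I)

variable (M)

/-- The relation `E^ω_M` of topological conjugacy on `Diff^ω(M)`: the pairs `(f, g)` such that
`h ∘ f = g ∘ h` for some homeomorphism `h : M → M`. -/
def topConj : Set (DiffOmega I M × DiffOmega I M) :=
  {p | ∃ h : M ≃ₜ M, ∀ x, h (p.1 x) = p.2 (h x)}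

/-- `E^ω_M` is a Borel subset of `Diff^ω(M) × Diff^ω(M)`. -/
def BorelConj : Prop := MeasurableSet[borel (DiffOmega I M × DiffOmega I M)] (topConj I M)

end

/-- the unit sphere `S²` of `ℝ³` -/
abbrev Sph : Type := Metric.sphere (0 : EuclideanSpace ℝ (Fin 3)) 1

/-- The manifold `S¹ × S¹ × S²` (a compact real analytic manifold of dimension `4`, with the
manifold structures of Mathlib on `Circle` and on the sphere). -/
abbrev TS : Type := Circle × Circle × Sph

/-- The vector space `ℝ¹ × ℝ¹ × ℝ²` on which `S¹ × S¹ × S²` is modelled. -/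
abbrev EM : Type := EuclideanSpace ℝ (Fin 1) × EuclideanSpace ℝ (Fin 1) × EuclideanSpace ℝ (Fin 2)

/-- The model space of `S¹ × S¹ × S²` (the same product). -/
abbrev HM : Type := ModelProd (EuclideanSpace ℝ (Fin 1))
  (ModelProd (EuclideanSpace ℝ (Fin 1)) (EuclideanSpace ℝ (Fin 2)))

/-! The following instances only name the ones found by Mathlib. -/

/-- Mathlib's norm on `EM` -/
noncomputable instance instNormedEM : NormedAddCommGroup EM := inferInstance

/-- Mathlib's vector space structure on `EM` -/
noncomputable instance instSpaceEM : NormedSpace ℝ EM := inferInstance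

/-- Mathlib's topology on `HM` -/
noncomputable instance instTopHM : TopologicalSpace HM := inferInstance

/-- Mathlib's topology on `S¹ × S¹ × S²` -/
noncomputable instance instTopTS : TopologicalSpace TS := inferInstance

/-- Mathlib's atlas on `S¹ × S¹ × S²` -/
noncomputable instance instChartedTS : ChartedSpace HM TS := inferInstance

/-- The model with corners of `S¹ × S²`, the product of those of the factors. -/
noncomputable abbrev IM₂ : ModelWithCorners ℝ
    (EuclideanSpace ℝ (Fin 1) × EuclideanSpace ℝ (Fin 2))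
    (ModelProd (EuclideanSpace ℝ (Fin 1)) (EuclideanSpace ℝ (Fin 2))) :=
  (𝓡 1).prod (𝓡 2)

/-- The model with corners of `S¹ × S¹ × S²`, the product of those of the factors. -/
noncomputable abbrev IM : ModelWithCorners ℝ EM HM := (𝓡 1).prod IM₂

end ANB
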