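import Pool.Agent.helper4.AN.Setting

/-!
# Continuity of smooth families of diffeomorphisms in the `C^∞` topology
-/

namespace ANB

open Set Topology Filter
open scoped Manifold ContDiff

section Family

variable {E : Type*} [NormedAddCommGroup E] [NormedSpace ℝ E] {H : Type*} [TopologicalSpace H]
  (I : ModelWithCorners ℝ E H) {M : Type*} [TopologicalSpace M] [ChartedSpace H M]

/-- derivatives in the second variable of a smooth function of two variables -/
theorem iteratedFDeriv_slice {V : Type*} [NormedAddCommGroup V] [NormedSpace ℝ V]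
    {U : Set (V × E)} (hU : IsOpen U) {F : V × E → E} (hF : ContDiffOn ℝ ∞ F U) (v : V) (x : E)
    (hx : (v, x) ∈ U) (j : ℕ) :
    iteratedFDeriv ℝ j (fun y => F (v, y)) x =
      (iteratedFDerivWithin ℝ j F U (v, x)).compContinuousLinearMap
        fun _ => ContinuousLinearMap.inr ℝ V E := by
  set U' : Set (V × E) := (fun p => (v, (0 : E)) + p) ⁻¹' U with hU'
  have hU'o : IsOpen U' := hU.preimage (by fun_prop)
  set F' : V × E → E := fun p => F ((v, (0 : E)) + p) with hF'
  have hF'c : ContDiffOn ℝ ∞ F' U' := hF.comp (by fun_prop) (fun p hp => hp)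
  have hmem : ContinuousLinearMap.inr ℝ V E x ∈ U' := by
    simp only [hU', mem_preimage, ContinuousLinearMap.inr_apply, Prod.mk_add_mk, add_zero, zero_add]
    exact hx
  have h1 := (ContinuousLinearMap.inr ℝ V E).iteratedFDerivWithin_comp_right hF'c
    hU'o.uniqueDiffOn ((hU'o.preimage (ContinuousLinearMap.inr ℝ V E).continuous).uniqueDiffOn)
    hmem (i := j) (by exact_mod_cast le_top)
  rw [iteratedFDerivWithin_of_isOpen j (hU'o.preimage (ContinuousLinearMap.inr ℝ V E).continuous)
    hmem] at h1
  have h2 : (F' ∘ (ContinuousLinearMap.inr ℝ V E)) = fun y => F (v, y) := by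
    funext y
    simp [hF']
  rw [h2] at h1
  rw [h1, iteratedFDerivWithin_of_isOpen j hU'o hmem, iteratedFDerivWithin_of_isOpen j hU hx,
    iteratedFDeriv_comp_add_left]
  congr 2
  simp

variable [I.Boundaryless]

/-- A smooth family of diffeomorphisms, parametrised by a normed space, is continuous for the
`C^∞` topology. -/
theorem continuous_family {V : Type*} [NormedAddCommGroup V] [NormedSpace ℝ V] {T : Type*}
    [TopologicalSpace T] {χ : T → V} (hχ : Continuous χ) {Ψ : V × M → M}
    (hΨ : ContMDiff (𝓘(ℝ, V).prod I) I ∞ Ψ) (F : T → DiffInf I M)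
    (hF : ∀ t m, F t m = Ψ (χ t, m)) : Continuous F := by
  refine continuous_generateFrom_iff.2 ?_
  rintro S ⟨f, φ, ψ, K, k, ε, hφ, hψ, hK, hKφ, hfK, hε, rfl⟩
  rw [isOpen_iff_mem_nhds]
  rintro t₀ ⟨h₁, h₂⟩
  have hΨc : Continuous Ψ := hΨ.continuous
  -- the joint map in charts
  set U : Set (V × E) := {p | p.2 ∈ (φ.extend I).target ∧
    Ψ (p.1, (φ.extend I).symm p.2) ∈ ψ.source} with hU
  have hto : IsOpen (φ.extend I).target := φ.isOpen_extend_target
  have hsymc : ContinuousOn (φ.extend I).symm (φ.extend I).target := φ.continuousOn_extend_symm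
  have hUo : IsOpen U := by
    have h3 : ContinuousOn (fun p : V × E => Ψ (p.1, (φ.extend I).symm p.2))
        (univ ×ˢ (φ.extend I).target) := by
      refine hΨc.comp_continuousOn ?_
      exact continuousOn_fst.prodMk (hsymc.comp continuousOn_snd (fun p hp => hp.2))
    have h4 := h3.isOpen_inter_preimage (isOpen_univ.prod hto) ψ.open_source
    convert h4 using 1
    ext p
    simp [hU]
  set G : V × E → E := fun p => ψ.extend I (Ψ (p.1, (φ.extend I).symm p.2)) with hG
  have hGs : ContDiffOn ℝ ∞ G U := by
    rw [← contMDiffOn_iff_contDiffOn]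
    have h5 : ContMDiffOn I 𝓘(ℝ, E) ∞ (ψ.extend I) ψ.source := ψ.contMDiffOn_extend hψ
    have h6 : ContMDiffOn 𝓘(ℝ, E) I ∞ (φ.extend I).symm (φ.extend I).target := by
      have := contMDiffOn_extend_symm hφ
      rwa [I.image_eq, ← φ.extend_target] at this
    have h7 : ContMDiffOn (𝓘(ℝ, V × E)) (𝓘(ℝ, V).prod I) ∞
        (fun p : V × E => (p.1, (φ.extend I).symm p.2)) U := by
      refine ContMDiffOn.prodMk ?_ ?_
      · exact contDiff_fst.contMDiff.contMDiffOn
      · exact h6.comp contDiff_snd.contMDiff.contMDiffOn (fun p hp => hp.1)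
    exact h5.comp (hΨ.comp_contMDiffOn h7) (fun p hp => hp.2)
  have hslice : ∀ (v : V) (x : E), (v, x) ∈ U → ∀ j : ℕ,
      iteratedFDeriv ℝ j (fun y => G (v, y)) x =
      (iteratedFDerivWithin ℝ j G U (v, x)).compContinuousLinearMap
        fun _ => ContinuousLinearMap.inr ℝ V E := fun v x hx j =>
    iteratedFDeriv_slice hUo hGs v x hx j
  have hrange : range I = univ := I.range_eq_univ
  -- statement about the images
  have e1 : ∀ᶠ t in 𝓝 t₀, ∀ m ∈ K, Ψ (χ t, m) ∈ ψ.source := by
    refine hK.eventually_forall_of_forall_eventually (P := fun t m => Ψ (χ t, m) ∈ ψ.source)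
      (fun m hm => ?_)
    have : ContinuousAt (fun z : T × M => Ψ (χ z.1, z.2)) (t₀, m) := by
      exact (hΨc.comp ((hχ.comp continuous_fst).prodMk continuous_snd)).continuousAt
    refine this (ψ.open_source.mem_nhds ?_)
    have := h₁ (mem_image_of_mem _ hm)
    rwa [hF] at this
  have e2 : ∀ j ≤ k, ∀ᶠ t in 𝓝 t₀, ∀ m ∈ K,
      ‖iteratedFDerivWithin ℝ j (inCharts I φ ψ (F t)) (range I) (φ.extend I m) -
      iteratedFDerivWithin ℝ j (inCharts I φ ψ f) (range I) (φ.extend I m)‖ < ε := by
    intro j hj
    refine hK.eventually_forall_of_forall_eventually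
      (P := fun t m => ‖iteratedFDerivWithin ℝ j (inCharts I φ ψ (F t)) (range I) (φ.extend I m) -
      iteratedFDerivWithin ℝ j (inCharts I φ ψ f) (range I) (φ.extend I m)‖ < ε) (fun m hm => ?_)
    have hmφ : m ∈ φ.source := hKφ hm
    have hmU : (χ t₀, φ.extend I m) ∈ U := by
      refine ⟨(φ.extend I).map_source (by rwa [φ.extend_source]), ?_⟩
      have := h₁ (mem_image_of_mem _ hm)
      rw [hF] at this
      show Ψ (χ t₀, (φ.extend I).symm (φ.extend I m)) ∈ ψ.source
      rwa [φ.extend_left_inv hmφ]
    -- continuity of the first term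
    have c1 : ContinuousAt (fun z : T × M =>
        iteratedFDerivWithin ℝ j (inCharts I φ ψ (F z.1)) (range I) (φ.extend I z.2)) (t₀, m) := by
      have c0 : ContinuousAt (fun z : T × M => (χ z.1, φ.extend I z.2)) (t₀, m) := by
        refine ContinuousAt.prodMk ?_ ?_
        · exact (hχ.comp continuous_fst).continuousAt
        · exact ContinuousAt.comp (f := Prod.snd) (x := ((t₀, m) : T × M))
            (φ.continuousAt_extend hmφ) continuousAt_snd
      have c2 : ContinuousAt (fun p : V × E =>
          (iteratedFDerivWithin ℝ j G U p).compContinuousLinearMap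
            fun _ => ContinuousLinearMap.inr ℝ V E) (χ t₀, φ.extend I m) := by
        have c3 : ContinuousAt (fun p : V × E => iteratedFDerivWithin ℝ j G U p)
            (χ t₀, φ.extend I m) :=
          (hGs.continuousOn_iteratedFDerivWithin (by exact_mod_cast le_top)
            hUo.uniqueDiffOn).continuousAt (hUo.mem_nhds hmU)
        exact ((ContinuousMultilinearMap.compContinuousLinearMapL
          (fun _ : Fin j => ContinuousLinearMap.inr ℝ V E)).continuous.continuousAt).comp c3
      have c4 : ContinuousAt (fun z : T × M =>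
          (iteratedFDerivWithin ℝ j G U (χ z.1, φ.extend I z.2)).compContinuousLinearMap
            fun _ => ContinuousLinearMap.inr ℝ V E) (t₀, m) :=
        ContinuousAt.comp (f := fun z : T × M => (χ z.1, φ.extend I z.2)) (x := (t₀, m)) c2 c0
      refine c4.congr ?_
      filter_upwards [c0 (hUo.mem_nhds hmU)] with z hz
      rw [← hslice _ _ hz j, hrange, iteratedFDerivWithin_univ]
      congr 1
      funext y
      simp only [hG, inCharts, Function.comp_apply, hF]
    have c5 : ContinuousAt (fun z : T × M =>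
        iteratedFDerivWithin ℝ j (inCharts I φ ψ f) (range I) (φ.extend I z.2)) (t₀, m) := by
      set W : Set E := {x | x ∈ (φ.extend I).target ∧ f ((φ.extend I).symm x) ∈ ψ.source} with hW
      have hWo : IsOpen W :=
        (f.continuous.comp_continuousOn hsymc).isOpen_inter_preimage hto ψ.open_source
      have hfs : ContDiffOn ℝ ∞ (inCharts I φ ψ f) W := by
        rw [← contMDiffOn_iff_contDiffOn]
        have h5 : ContMDiffOn I 𝓘(ℝ, E) ∞ (ψ.extend I) ψ.source := ψ.contMDiffOn_extend hψ
        have h6 : ContMDiffOn 𝓘(ℝ, E) I ∞ (φ.extend I).symm (φ.extend I).target := by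
          have := contMDiffOn_extend_symm hφ
          rwa [I.image_eq, ← φ.extend_target] at this
        exact h5.comp (f.contMDiff_toFun.comp_contMDiffOn (h6.mono (fun p hp => hp.1)))
          (fun p hp => hp.2)
      have hmW : φ.extend I m ∈ W := by
        refine ⟨(φ.extend I).map_source (by rwa [φ.extend_source]), ?_⟩
        rw [φ.extend_left_inv hmφ]
        exact hfK (mem_image_of_mem _ hm)
      have c6 : ContinuousAt (iteratedFDerivWithin ℝ j (inCharts I φ ψ f) (range I))
          (φ.extend I m) := by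
        have c7 : ContinuousAt (iteratedFDerivWithin ℝ j (inCharts I φ ψ f) W)
            (φ.extend I m) :=
          (hfs.continuousOn_iteratedFDerivWithin (by exact_mod_cast le_top)
            hWo.uniqueDiffOn).continuousAt (hWo.mem_nhds hmW)
        refine c7.congr ?_
        filter_upwards [hWo.mem_nhds hmW] with y hy
        rw [iteratedFDerivWithin_of_isOpen j hWo hy, hrange, iteratedFDerivWithin_univ]
      exact ContinuousAt.comp (f := fun z : T × M => φ.extend I z.2) (x := (t₀, m)) c6
        (ContinuousAt.comp (f := Prod.snd) (x := ((t₀, m) : T × M))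
            (φ.continuousAt_extend hmφ) continuousAt_snd)
    have c8 := (c1.sub c5).norm
    exact c8.eventually_lt continuousAt_const (h₂ m hm j hj)
  have e3 : ∀ᶠ t in 𝓝 t₀, ∀ j ≤ k, ∀ m ∈ K,
      ‖iteratedFDerivWithin ℝ j (inCharts I φ ψ (F t)) (range I) (φ.extend I m) -
      iteratedFDerivWithin ℝ j (inCharts I φ ψ f) (range I) (φ.extend I m)‖ < ε := by
    have := (Set.finite_Iic k).eventually_all (l := 𝓝 t₀) (p := fun j t => ∀ m ∈ K,
      ‖iteratedFDerivWithin ℝ j (inCharts I φ ψ (F t)) (range I) (φ.extend I m) -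
      iteratedFDerivWithin ℝ j (inCharts I φ ψ f) (range I) (φ.extend I m)‖ < ε)
    exact this.2 e2
  filter_upwards [e1, e3] with t ht1 ht2
  refine ⟨?_, fun x hx j hj => ht2 j hj x hx⟩
  rintro _ ⟨m, hm, rfl⟩
  rw [hF]
  exact ht1 m hm

end Family

end ANB
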